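import Pool.Agent.Lib.MP_0219da_al.Cycle

/-!
The block embedding: the core polynomial in `T`, `Tᵀ`, `w` is realised by the polynomial
`pForm` in two symmetric matrices.
-/

namespace Pool.Agent.Lib.MP_0219da_al

open Matrix

section

variable {n : ℕ}

/-- flattening of block matrices -/
noncomputable def flat (n : ℕ) :
    Matrix (Fin 3) (Fin 3) (Matrix (Fin n) (Fin n) ℝ) →ₐ[ℝ]
      Matrix (Fin (3 * n)) (Fin (3 * n)) ℝ :=
  ((Matrix.reindexAlgEquiv ℝ ℝ (finProdFinEquiv (m := 3) (n := n))).toAlgHom).comp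
    (Matrix.compAlgEquiv (Fin 3) (Fin n) ℝ ℝ).toAlgHom

theorem flat_apply (M : Matrix (Fin 3) (Fin 3) (Matrix (Fin n) (Fin n) ℝ))
    (i j : Fin (3 * n)) :
    flat n M i j = M (finProdFinEquiv.symm i).1 (finProdFinEquiv.symm j).1
      (finProdFinEquiv.symm i).2 (finProdFinEquiv.symm j).2 := rfl

theorem trace_flat (M : Matrix (Fin 3) (Fin 3) (Matrix (Fin n) (Fin n) ℝ)) :
    (flat n M).trace = ∑ a, (M a a).trace := by
  simp only [Matrix.trace, Matrix.diag_apply, flat_apply]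
  rw [← Equiv.sum_comp (finProdFinEquiv (m := 3) (n := n)), Fintype.sum_prod_type]
  simp

theorem flat_transpose (M : Matrix (Fin 3) (Fin 3) (Matrix (Fin n) (Fin n) ℝ))
    (h : ∀ a b, (M b a)ᵀ = M a b) : (flat n M)ᵀ = flat n M := by
  ext i j
  rw [Matrix.transpose_apply, flat_apply, flat_apply, ← h, Matrix.transpose_apply]

theorem map_pForm {k 𝒜 ℬ : Type*} [Field k] [Ring 𝒜] [Ring ℬ] [Algebra k 𝒜] [Algebra k ℬ]
    (f : 𝒜 →ₐ[k] ℬ) (lam l : k) (x y : 𝒜) :
    f (pForm lam l x y) = pForm lam l (f x) (f y) := by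
  simp [pForm, map_core, tau, tau', omega, e1, e2, e3]

/-- diagonal of the block scalar matrix -/
def dX (n : ℕ) : Fin 3 → Matrix (Fin n) (Fin n) ℝ := ![1, 0, -1]

/-- block matrix containing `T` and `w` -/
def blockY (T w : Matrix (Fin n) (Fin n) ℝ) :
    Matrix (Fin 3) (Fin 3) (Matrix (Fin n) (Fin n) ℝ) :=
  Matrix.of ![![w + 1, 1, 1], ![1, 0, T], ![1, Tᵀ, 0]]

theorem e1_blockX : e1 ℝ (diagonal (dX n)) = Matrix.single 0 0 1 := by
  have h : e1 ℝ (diagonal (dX n)) = diagonal (e1 ℝ (dX n)) := by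
    simp only [e1, diagonal_mul_diagonal', diagonal_add, diagonal_smul]
    rfl
  rw [h, ← diagonal_single]
  congr 1
  funext a
  fin_cases a
  · show (1 / 2 : ℝ) • ((1 : Matrix (Fin n) (Fin n) ℝ) * 1 + 1) = 1
    rw [mul_one, ← two_smul ℝ, smul_smul]
    norm_num
  · show (1 / 2 : ℝ) • ((0 : Matrix (Fin n) (Fin n) ℝ) * 0 + 0) = 0
    simp
  · show (1 / 2 : ℝ) • ((-1 : Matrix (Fin n) (Fin n) ℝ) * (-1) + (-1)) = 0
    simp

theorem e2_blockX : e2 (diagonal (dX n)) = Matrix.single 1 1 1 := by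
  have h : e2 (diagonal (dX n)) = diagonal (e2 (dX n)) := by
    simp only [e2, diagonal_mul_diagonal', diagonal_sub, ← diagonal_one]
    rfl
  rw [h, ← diagonal_single]
  congr 1
  funext a
  fin_cases a
  · show (1 : Matrix (Fin n) (Fin n) ℝ) - 1 * 1 = 0
    simp
  · show (1 : Matrix (Fin n) (Fin n) ℝ) - 0 * 0 = 1
    simp
  · show (1 : Matrix (Fin n) (Fin n) ℝ) - (-1) * (-1) = 0
    simp

theorem e3_blockX : e3 ℝ (diagonal (dX n)) = Matrix.single 2 2 1 := by
  have h : e3 ℝ (diagonal (dX n)) = diagonal (e3 ℝ (dX n)) := by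
    simp only [e3, diagonal_mul_diagonal', diagonal_sub, diagonal_smul]
    rfl
  rw [h, ← diagonal_single]
  congr 1
  funext a
  fin_cases a
  · show (1 / 2 : ℝ) • ((1 : Matrix (Fin n) (Fin n) ℝ) * 1 - 1) = 0
    simp
  · show (1 / 2 : ℝ) • ((0 : Matrix (Fin n) (Fin n) ℝ) * 0 - 0) = 0
    simp
  · show (1 / 2 : ℝ) • ((-1 : Matrix (Fin n) (Fin n) ℝ) * (-1) - (-1)) = 1
    rw [neg_mul_neg, mul_one, sub_neg_eq_add, ← two_smul ℝ, smul_smul]
    norm_num

theorem tau_block (T w : Matrix (Fin n) (Fin n) ℝ) :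
    tau ℝ (diagonal (dX n)) (blockY T w) = diagonal (Pi.single 0 T) := by
  unfold tau
  rw [e1_blockX, e2_blockX, e3_blockX]
  rw [Matrix.single_mul_mul_single, Matrix.single_mul_mul_single, Matrix.single_mul_mul_single,
    diagonal_single]
  congr 1
  rw [show blockY T w 0 1 = 1 from rfl, show blockY T w 1 2 = T from rfl,
    show blockY T w 2 0 = 1 from rfl]
  simp

theorem tau'_block (T w : Matrix (Fin n) (Fin n) ℝ) :
    tau' ℝ (diagonal (dX n)) (blockY T w) = diagonal (Pi.single 0 Tᵀ) := by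
  unfold tau'
  rw [e1_blockX, e2_blockX, e3_blockX]
  rw [Matrix.single_mul_mul_single, Matrix.single_mul_mul_single, Matrix.single_mul_mul_single,
    diagonal_single]
  congr 1
  rw [show blockY T w 0 2 = 1 from rfl, show blockY T w 2 1 = Tᵀ from rfl,
    show blockY T w 1 0 = 1 from rfl]
  simp

theorem omega_block (T w : Matrix (Fin n) (Fin n) ℝ) :
    omega ℝ (diagonal (dX n)) (blockY T w) = diagonal (-1 + Pi.single 0 (w + 1)) := by
  have h : (-1 : Matrix (Fin 3) (Fin 3) (Matrix (Fin n) (Fin n) ℝ)) =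
      diagonal (-1 : Fin 3 → Matrix (Fin n) (Fin n) ℝ) := by
    rw [← diagonal_one, diagonal_neg]
    rfl
  have h2 : diagonal (-1 + Pi.single 0 (w + 1) : Fin 3 → Matrix (Fin n) (Fin n) ℝ) =
      diagonal (-1 : Fin 3 → Matrix (Fin n) (Fin n) ℝ) + diagonal (Pi.single 0 (w + 1)) :=
    (diagonal_add _ _).symm
  unfold omega
  rw [e1_blockX, Matrix.single_mul_mul_single, h2, ← h, diagonal_single,
    show blockY T w 0 0 = w + 1 from rfl]
  simp

theorem trace_pForm_block (lam l : ℝ) (T w : Matrix (Fin n) (Fin n) ℝ) :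
    (pForm lam l (flat n (diagonal (dX n))) (flat n (blockY T w))).trace =
      (core lam l T Tᵀ w).trace := by
  rw [← map_pForm, trace_flat]
  unfold pForm
  rw [tau_block, tau'_block, omega_block]
  have h := map_core (Matrix.diagonalAlgHom ℝ (n := Fin 3) (α := Matrix (Fin n) (Fin n) ℝ)) lam l
    (Pi.single 0 T) (Pi.single 0 Tᵀ) (-1 + Pi.single 0 (w + 1))
  simp only [Matrix.diagonalAlgHom_apply] at h
  rw [← h]
  simp only [Matrix.diagonal_apply_eq]
  have hev : ∀ a : Fin 3, core lam l (Pi.single 0 T : Fin 3 → Matrix (Fin n) (Fin n) ℝ)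
      (Pi.single 0 Tᵀ) (-1 + Pi.single 0 (w + 1)) a =
      core lam l ((Pi.single 0 T : Fin 3 → Matrix (Fin n) (Fin n) ℝ) a)
        ((Pi.single 0 Tᵀ : Fin 3 → Matrix (Fin n) (Fin n) ℝ) a)
        ((-1 + Pi.single 0 (w + 1) : Fin 3 → Matrix (Fin n) (Fin n) ℝ) a) := fun a =>
    map_core (Pi.evalAlgHom ℝ (fun _ : Fin 3 => Matrix (Fin n) (Fin n) ℝ) a) lam l _ _ _
  have h0 : core lam l (0 : Matrix (Fin n) (Fin n) ℝ) 0 (-1) = 0 := by
    simp [core, pAB]
  simp only [hev]
  rw [Fin.sum_univ_three]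
  have e0 : (-1 + Pi.single 0 (w + 1) : Fin 3 → Matrix (Fin n) (Fin n) ℝ) 0 = w := by
    simp
  have e1' : (-1 + Pi.single 0 (w + 1) : Fin 3 → Matrix (Fin n) (Fin n) ℝ) 1 = -1 := by
    simp
  have e2' : (-1 + Pi.single 0 (w + 1) : Fin 3 → Matrix (Fin n) (Fin n) ℝ) 2 = -1 := by
    simp
  rw [e0, e1', e2']
  simp [h0]

/-- **The block embedding.** -/
theorem exists_symm_pair (lam l : ℝ) (T w : Matrix (Fin n) (Fin n) ℝ) (hw : wᵀ = w) :
    ∃ (m : ℕ) (X Y : Matrix (Fin m) (Fin m) ℝ), X.IsSymm ∧ Y.IsSymm ∧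
      (pForm lam l X Y).trace = (core lam l T Tᵀ w).trace := by
  refine ⟨3 * n, flat n (diagonal (dX n)), flat n (blockY T w), ?_, ?_,
    trace_pForm_block lam l T w⟩
  · apply flat_transpose
    intro a b
    by_cases hab : a = b
    · subst hab
      rw [Matrix.diagonal_apply_eq]
      fin_cases a
      · show (1 : Matrix (Fin n) (Fin n) ℝ)ᵀ = 1
        simp
      · show (0 : Matrix (Fin n) (Fin n) ℝ)ᵀ = 0
        simp
      · show (-1 : Matrix (Fin n) (Fin n) ℝ)ᵀ = -1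
        simp
    · rw [Matrix.diagonal_apply_ne _ hab, Matrix.diagonal_apply_ne _ (Ne.symm hab)]
      simp
  · apply flat_transpose
    intro a b
    have h1 : (w + 1)ᵀ = w + 1 := by rw [Matrix.transpose_add, hw, Matrix.transpose_one]
    fin_cases a <;> fin_cases b
    · exact h1
    · exact Matrix.transpose_one
    · exact Matrix.transpose_one
    · exact Matrix.transpose_one
    · exact Matrix.transpose_zero
    · exact Matrix.transpose_transpose T
    · exact Matrix.transpose_one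
    · rfl
    · exact Matrix.transpose_zero

end

end Pool.Agent.Lib.MP_0219da_al
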