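import Pool.Agent.Lib.MP_0219da_al.Scalar

/-!
Trace positivity of the core polynomial.
-/

namespace Pool.Agent.Lib.MP_0219da_al

open Matrix

section

variable {n : ℕ}

/-- real spectral decomposition of positive semidefinite matrices -/
theorem exists_diag (A : Matrix (Fin n) (Fin n) ℝ) (hA : A.PosSemidef) :
    ∃ (U : Matrix (Fin n) (Fin n) ℝ) (a : Fin n → ℝ), Uᵀ * U = 1 ∧ U * Uᵀ = 1 ∧
      (∀ i, 0 ≤ a i) ∧ A = U * diagonal a * Uᵀ := by
  refine ⟨(hA.isHermitian.eigenvectorUnitary : Matrix (Fin n) (Fin n) ℝ),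
    hA.isHermitian.eigenvalues, ?_, ?_, hA.eigenvalues_nonneg, ?_⟩
  · have := Unitary.coe_star_mul_self hA.isHermitian.eigenvectorUnitary
    rwa [Matrix.star_eq_conjTranspose, conjTranspose_eq_transpose_of_trivial] at this
  · have := Unitary.coe_mul_star_self hA.isHermitian.eigenvectorUnitary
    rwa [Unitary.coe_star, Matrix.star_eq_conjTranspose, conjTranspose_eq_transpose_of_trivial] at this
  · have := hA.isHermitian.spectral_theorem
    rw [Unitary.conjStarAlgAut_apply, Matrix.star_eq_conjTranspose,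
      conjTranspose_eq_transpose_of_trivial] at this
    exact this

/-- conjugation of diagonal matrices by an orthogonal matrix, as an algebra homomorphism -/
noncomputable def conjD (U : Matrix (Fin n) (Fin n) ℝ) (h : Uᵀ * U = 1) (h' : U * Uᵀ = 1) :
    (Fin n → ℝ) →ₐ[ℝ] Matrix (Fin n) (Fin n) ℝ where
  toFun f := U * diagonal f * Uᵀ
  map_one' := by
    rw [show (diagonal (1 : Fin n → ℝ)) = (1 : Matrix (Fin n) (Fin n) ℝ) from diagonal_one,
      Matrix.mul_one, h']
  map_mul' f g := by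
    rw [show (diagonal (f * g)) = diagonal f * diagonal g from (diagonal_mul_diagonal' f g).symm]
    calc U * (diagonal f * diagonal g) * Uᵀ
        = U * diagonal f * 1 * (diagonal g * Uᵀ) := by simp only [Matrix.mul_one, Matrix.mul_assoc]
      _ = U * diagonal f * Uᵀ * (U * diagonal g * Uᵀ) := by
          rw [← h]; simp only [Matrix.mul_assoc]
  map_zero' := by
    rw [show (diagonal (0 : Fin n → ℝ)) = (0 : Matrix (Fin n) (Fin n) ℝ) from diagonal_zero,
      Matrix.mul_zero, Matrix.zero_mul]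
  map_add' f g := by
    rw [show (diagonal (f + g)) = diagonal f + diagonal g from (diagonal_add f g).symm,
      Matrix.mul_add, Matrix.add_mul]
  commutes' c := by
    rw [show (diagonal (algebraMap ℝ (Fin n → ℝ) c)) = c • (1 : Matrix (Fin n) (Fin n) ℝ) from ?_]
    · rw [Matrix.mul_smul, Matrix.smul_mul, Matrix.mul_one, h', Algebra.algebraMap_eq_smul_one]
    · ext i j
      by_cases hij : i = j
      · subst hij; simp
      · simp [hij]

theorem conjD_apply (U : Matrix (Fin n) (Fin n) ℝ) (h : Uᵀ * U = 1) (h' : U * Uᵀ = 1)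
    (f : Fin n → ℝ) : conjD U h h' f = U * diagonal f * Uᵀ := rfl

theorem trace_conjD_mul (U V : Matrix (Fin n) (Fin n) ℝ) (hU : Uᵀ * U = 1) (hU' : U * Uᵀ = 1)
    (hV : Vᵀ * V = 1) (hV' : V * Vᵀ = 1) (f g : Fin n → ℝ) :
    (conjD U hU hU' f * conjD V hV hV' g).trace =
      ∑ i, ∑ j, (f i * g j) * ((Uᵀ * V) i j) ^ 2 := by
  rw [conjD_apply, conjD_apply]
  have h1 : U * diagonal f * Uᵀ * (V * diagonal g * Vᵀ) =
      U * ((diagonal f * (Uᵀ * V)) * diagonal g * Vᵀ) := by
    simp only [Matrix.mul_assoc]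
  rw [h1, Matrix.trace_mul_comm]
  have h2 : diagonal f * (Uᵀ * V) * diagonal g * Vᵀ * U =
      (diagonal f * (Uᵀ * V) * diagonal g) * (Uᵀ * V)ᵀ := by
    rw [Matrix.transpose_mul, Matrix.transpose_transpose, Matrix.mul_assoc]
  rw [h2]
  simp only [Matrix.trace, Matrix.diag_apply, Matrix.mul_apply (M := diagonal f * (Uᵀ * V) * diagonal g),
    Matrix.mul_diagonal, Matrix.diagonal_mul, Matrix.transpose_apply]
  refine Finset.sum_congr rfl fun i _ => Finset.sum_congr rfl fun j _ => ?_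
  ring

theorem map_qB {k 𝒜 ℬ : Type*} [Field k] [Ring 𝒜] [Ring ℬ] [Algebra k 𝒜] [Algebra k ℬ]
    (f : 𝒜 →ₐ[k] ℬ) (lam l : k) (B : 𝒜) : f (qB lam l B) = qB lam l (f B) := by
  simp [qB]

theorem trace_pAB (lam l : ℝ) (U V : Matrix (Fin n) (Fin n) ℝ) (hU : Uᵀ * U = 1)
    (hU' : U * Uᵀ = 1) (hV : Vᵀ * V = 1) (hV' : V * Vᵀ = 1) (a b : Fin n → ℝ) :
    (pAB lam l (conjD U hU hU' a) (conjD V hV hV' b)).trace =
      ∑ i, ∑ j, costP lam l (a i) (b j) * ((Uᵀ * V) i j) ^ 2 := by
  have key : pAB lam l (conjD U hU hU' a) (conjD V hV hV' b) =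
      conjD U hU hU' 1 * conjD V hV hV' (b * b * qB lam l b)
      - (2:ℝ) • (conjD U hU hU' a * conjD V hV hV' (b * qB lam l b))
      + conjD U hU hU' (a * a) * conjD V hV hV' (qB lam l b)
      + conjD U hU hU' a * conjD V hV hV' (b * b)
      - (2:ℝ) • (conjD U hU hU' (a * a) * conjD V hV hV' b)
      + conjD U hU hU' (a * a * a) * conjD V hV hV' 1 := by
    simp only [pAB, map_mul, map_one, map_qB, Matrix.one_mul, Matrix.mul_one]
  rw [key]
  simp only [trace_add, trace_sub, trace_smul, trace_conjD_mul, smul_eq_mul, Finset.mul_sum,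
    ← Finset.sum_add_distrib, ← Finset.sum_sub_distrib]
  refine Finset.sum_congr rfl fun i _ => Finset.sum_congr rfl fun j _ => ?_
  have hq : qB lam l b j = mPar lam l + m1Par lam l * (1 - lam + b j) + (1 - lam + b j) ^ 2 := by
    simp [qB]
    ring
  simp only [Pi.mul_apply, Pi.one_apply, hq, costP]
  ring

theorem trace_w_terms (w U V : Matrix (Fin n) (Fin n) ℝ) (hw : wᵀ = w) (hU : Uᵀ * U = 1)
    (hU' : U * Uᵀ = 1) (hV : Vᵀ * V = 1) (hV' : V * Vᵀ = 1) (α β : Fin n → ℝ) :
    (w * (conjD U hU hU' α * conjD U hU hU' α) * w).trace =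
      ∑ i, ∑ j, (α i) ^ 2 * ((Uᵀ * w * V) i j) ^ 2 ∧
    (w * conjD V hV hV' β).trace = ∑ i, ∑ j, β j * ((Uᵀ * V) i j * (Uᵀ * w * V) i j) := by
  set W : Matrix (Fin n) (Fin n) ℝ := Uᵀ * w * V with hW
  have hw1 : w = U * W * Vᵀ := by
    rw [hW]
    calc w = 1 * w * 1 := by simp
      _ = (U * Uᵀ) * w * (V * Vᵀ) := by rw [hU', hV']
      _ = _ := by simp only [Matrix.mul_assoc]
  have hw2 : w = V * Wᵀ * Uᵀ := by
    calc w = wᵀ := hw.symm
      _ = (U * W * Vᵀ)ᵀ := by rw [← hw1]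
      _ = _ := by simp only [Matrix.transpose_mul, Matrix.transpose_transpose, Matrix.mul_assoc]
  constructor
  · rw [← map_mul, conjD_apply]
    have h1 : w * (U * diagonal (α * α) * Uᵀ) * w =
        V * (Wᵀ * (diagonal (α * α)) * W * Vᵀ) := by
      calc w * (U * diagonal (α * α) * Uᵀ) * w
          = (V * Wᵀ * Uᵀ) * (U * diagonal (α * α) * Uᵀ) * (U * W * Vᵀ) := by
            rw [← hw1, ← hw2]
        _ = V * Wᵀ * (Uᵀ * U) * diagonal (α * α) * (Uᵀ * U) * W * Vᵀ := by
            simp only [Matrix.mul_assoc]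
        _ = _ := by rw [hU]; simp only [Matrix.mul_one, Matrix.mul_assoc]
    rw [h1, Matrix.trace_mul_comm]
    have h2 : Wᵀ * diagonal (α * α) * W * Vᵀ * V = Wᵀ * diagonal (α * α) * W := by
      rw [Matrix.mul_assoc _ Vᵀ V, hV, Matrix.mul_one]
    rw [h2]
    simp only [Matrix.trace, Matrix.diag_apply, Matrix.mul_apply (M := Wᵀ * diagonal (α * α)),
      Matrix.mul_diagonal, Matrix.transpose_apply]
    rw [Finset.sum_comm]
    refine Finset.sum_congr rfl fun i _ => Finset.sum_congr rfl fun j _ => ?_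
    simp only [Pi.mul_apply]
    ring
  · rw [conjD_apply]
    have h1 : w * (V * diagonal β * Vᵀ) = U * (W * diagonal β * Vᵀ) := by
      calc w * (V * diagonal β * Vᵀ) = (U * W * Vᵀ) * (V * diagonal β * Vᵀ) := by rw [← hw1]
        _ = U * W * (Vᵀ * V) * diagonal β * Vᵀ := by simp only [Matrix.mul_assoc]
        _ = _ := by rw [hV]; simp only [Matrix.mul_one, Matrix.mul_assoc]
    rw [h1, Matrix.trace_mul_comm]
    have h2 : W * diagonal β * Vᵀ * U = W * diagonal β * (Uᵀ * V)ᵀ := by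
      rw [Matrix.transpose_mul, Matrix.transpose_transpose, Matrix.mul_assoc]
    rw [h2]
    simp only [Matrix.trace, Matrix.diag_apply, Matrix.mul_apply (M := W * diagonal β),
      Matrix.mul_diagonal, Matrix.transpose_apply]
    refine Finset.sum_congr rfl fun i _ => Finset.sum_congr rfl fun j _ => ?_
    ring

theorem sum_sq_row (O : Matrix (Fin n) (Fin n) ℝ) (h : O * Oᵀ = 1) (i : Fin n) :
    ∑ j, (O i j) ^ 2 = 1 := by
  have := congrFun (congrFun h i) i
  rw [Matrix.mul_apply, Matrix.one_apply_eq] at this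
  rw [← this]
  refine Finset.sum_congr rfl fun j _ => ?_
  rw [Matrix.transpose_apply]; ring

theorem sum_sq_col (O : Matrix (Fin n) (Fin n) ℝ) (h : Oᵀ * O = 1) (j : Fin n) :
    ∑ i, (O i j) ^ 2 = 1 := by
  have := congrFun (congrFun h j) j
  rw [Matrix.mul_apply, Matrix.one_apply_eq] at this
  rw [← this]
  refine Finset.sum_congr rfl fun i _ => ?_
  rw [Matrix.transpose_apply]; ring

/-- `log det (1 + A) = ∑ log (1 + a_i)` -/
theorem sum_log_eq (U : Matrix (Fin n) (Fin n) ℝ) (hU : Uᵀ * U = 1) (hU' : U * Uᵀ = 1)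
    (a : Fin n → ℝ) (ha : ∀ i, 0 ≤ a i) :
    ∑ i, Real.log (1 + a i) = Real.log (1 + conjD U hU hU' a).det := by
  have h1 : 1 + conjD U hU hU' a = conjD U hU hU' (1 + a) := by rw [map_add, map_one]
  have h2 : (conjD U hU hU' (1 + a)).det = ∏ i, (1 + a i) := by
    rw [conjD_apply, Matrix.det_mul, Matrix.det_mul, mul_right_comm, ← Matrix.det_mul, hU',
      Matrix.det_one, one_mul, Matrix.det_diagonal]
    rfl
  rw [h1, h2, Real.log_prod]
  intro i _
  have := ha i
  positivity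

/-- **Trace positivity of the core polynomial at the threshold `l = log λ`.** -/
theorem trace_core_nonneg {lam : ℝ} (hlam : 1 < lam) (T w : Matrix (Fin n) (Fin n) ℝ)
    (hw : wᵀ = w) : 0 ≤ (core lam (Real.log lam) T Tᵀ w).trace := by
  have hA : (Tᵀ * T).PosSemidef := by
    have := Matrix.posSemidef_conjTranspose_mul_self T
    rwa [conjTranspose_eq_transpose_of_trivial] at this
  have hB : (T * Tᵀ).PosSemidef := by
    have := Matrix.posSemidef_self_mul_conjTranspose T
    rwa [conjTranspose_eq_transpose_of_trivial] at this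
  obtain ⟨U, a, hU, hU', ha, hAU⟩ := exists_diag _ hA
  obtain ⟨V, b, hV, hV', hb, hBV⟩ := exists_diag _ hB
  rw [← conjD_apply U hU hU' a] at hAU
  rw [← conjD_apply V hV hV' b] at hBV
  set O : Matrix (Fin n) (Fin n) ℝ := Uᵀ * V with hO
  set W : Matrix (Fin n) (Fin n) ℝ := Uᵀ * w * V with hW
  have hO1 : O * Oᵀ = 1 := by
    rw [hO, Matrix.transpose_mul, Matrix.transpose_transpose]
    calc Uᵀ * V * (Vᵀ * U) = Uᵀ * (V * Vᵀ) * U := by simp only [Matrix.mul_assoc]
      _ = 1 := by rw [hV', Matrix.mul_one, hU]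
  have hO2 : Oᵀ * O = 1 := by
    rw [hO, Matrix.transpose_mul, Matrix.transpose_transpose]
    calc Vᵀ * U * (Uᵀ * V) = Vᵀ * (U * Uᵀ) * V := by simp only [Matrix.mul_assoc]
      _ = 1 := by rw [hU', Matrix.mul_one, hV]
  have hone : (1 : Matrix (Fin n) (Fin n) ℝ) = conjD U hU hU' 1 * conjD V hV hV' 1 := by
    rw [map_one, map_one, Matrix.mul_one]
  have h1A : 1 + Tᵀ * T = conjD U hU hU' (1 + a) := by rw [hAU, map_add, map_one]
  have h1B : 1 + T * Tᵀ = conjD V hV hV' (1 + b) := by rw [hBV, map_add, map_one]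
  obtain ⟨t1, t2⟩ := trace_w_terms w U V hw hU hU' hV hV' (1 + a) (1 + b)
  obtain ⟨-, t2⟩ := trace_w_terms w U V hw hU hU' hV hV' (1 + a) (1 + b)
  have htr : (core lam (Real.log lam) T Tᵀ w).trace =
      ∑ i, ∑ j, (O i j ^ 2 * (1 + costP lam (Real.log lam) (a i) (b j)) +
        (1 + a i) ^ 2 * W i j ^ 2 + 2 * ((1 + b j) * (O i j * W i j))) := by
    unfold core
    rw [trace_add, trace_add, trace_add, trace_add, h1A, h1B,
      Matrix.trace_mul_comm (conjD V hV hV' (1 + b)) w, t1, t2, hAU, hBV,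
      trace_pAB lam _ U V hU hU' hV hV' a b, hone,
      trace_conjD_mul U V hU hU' hV hV' 1 1]
    simp only [← Finset.sum_add_distrib]
    refine Finset.sum_congr rfl fun i _ => Finset.sum_congr rfl fun j _ => ?_
    simp only [Pi.one_apply, Pi.add_apply, ← hO, ← hW]
    ring
  have hterm : ∀ i j, O i j ^ 2 * (2 * Real.log (1 + a i) - 2 * Real.log (1 + b j)) ≤
      O i j ^ 2 * (1 + costP lam (Real.log lam) (a i) (b j)) +
        (1 + a i) ^ 2 * W i j ^ 2 + 2 * ((1 + b j) * (O i j * W i j)) := by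
    intro i j
    have h1 := scalar_ineq hlam (ha i) (hb j)
    have h2 := mul_le_mul_of_nonneg_left h1 (sq_nonneg (O i j))
    have hα : 0 < 1 + a i := by have := ha i; linarith
    have h3 : 0 ≤ ((1 + a i) * W i j + (1 + b j) / (1 + a i) * O i j) ^ 2 := sq_nonneg _
    have h4 : ((1 + a i) * W i j + (1 + b j) / (1 + a i) * O i j) ^ 2 =
        (1 + a i) ^ 2 * W i j ^ 2 + 2 * ((1 + b j) * (O i j * W i j)) +
          (1 + b j) ^ 2 / (1 + a i) ^ 2 * O i j ^ 2 := by
      field_simp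
      ring
    rw [h4] at h3
    nlinarith [h2, h3]
  have hsum : ∑ i, ∑ j, O i j ^ 2 * (2 * Real.log (1 + a i) - 2 * Real.log (1 + b j)) = 0 := by
    have e1 : ∑ i, ∑ j, O i j ^ 2 * (2 * Real.log (1 + a i)) =
        2 * ∑ i, Real.log (1 + a i) := by
      rw [Finset.mul_sum]
      refine Finset.sum_congr rfl fun i _ => ?_
      rw [← Finset.sum_mul, sum_sq_row O hO1, one_mul]
    have e2 : ∑ i, ∑ j, O i j ^ 2 * (2 * Real.log (1 + b j)) =
        2 * ∑ j, Real.log (1 + b j) := by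
      rw [Finset.sum_comm, Finset.mul_sum]
      refine Finset.sum_congr rfl fun j _ => ?_
      rw [← Finset.sum_mul, sum_sq_col O hO2, one_mul]
    have e3 : ∑ i, Real.log (1 + a i) = ∑ j, Real.log (1 + b j) := by
      rw [sum_log_eq U hU hU' a ha, sum_log_eq V hV hV' b hb, ← hAU, ← hBV,
        Matrix.det_one_add_mul_comm]
    simp only [mul_sub, Finset.sum_sub_distrib]
    rw [e1, e2, e3, sub_self]
  rw [htr, ← hsum]
  exact Finset.sum_le_sum fun i _ => Finset.sum_le_sum fun j _ => hterm i j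

end

end Pool.Agent.Lib.MP_0219da_al
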