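import Pool.Agent.Lib.MP_0219da_al.Scalar

/-!
Above the threshold `l > log λ` the core polynomial is not trace-positive: a negative cycle.
-/

namespace Pool.Agent.Lib.MP_0219da_al

open Matrix

section

theorem map_core {k 𝒜 ℬ : Type*} [Field k] [Ring 𝒜] [Ring ℬ] [Algebra k 𝒜] [Algebra k ℬ]
    (f : 𝒜 →ₐ[k] ℬ) (lam l : k) (T T' w : 𝒜) :
    f (core lam l T T' w) = core lam l (f T) (f T') (f w) := by
  simp [core, pAB, qB]

/-- the part of `core` that depends on `A = T' T`, `B = T T'` and `w` -/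
def core' {k 𝒜 : Type*} [Field k] [Ring 𝒜] [Algebra k 𝒜] (lam l : k) (A B w : 𝒜) : 𝒜 :=
  1 + w * ((1 + A) * (1 + A)) * w + w * (1 + B) + (1 + B) * w + pAB lam l A B

theorem map_core' {k 𝒜 ℬ : Type*} [Field k] [Ring 𝒜] [Ring ℬ] [Algebra k 𝒜] [Algebra k ℬ]
    (f : 𝒜 →ₐ[k] ℬ) (lam l : k) (A B w : 𝒜) :
    f (core' lam l A B w) = core' lam l (f A) (f B) (f w) := by
  simp [core', pAB, qB]

variable {n : ℕ}

/-- weighted permutation matrix -/
noncomputable def wperm (π : Equiv.Perm (Fin n)) (x : Fin n → ℝ) : Matrix (Fin n) (Fin n) ℝ :=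
  Matrix.of fun i j => if π i = j then Real.sqrt (x j) else 0

theorem wperm_left (π : Equiv.Perm (Fin n)) (x : Fin n → ℝ) (hx : ∀ i, 0 ≤ x i) :
    (wperm π x)ᵀ * wperm π x = diagonal x := by
  ext i j
  rw [Matrix.mul_apply, Matrix.diagonal_apply]
  simp only [Matrix.transpose_apply, wperm, Matrix.of_apply]
  rw [Finset.sum_eq_single (π.symm i)]
  · by_cases hij : i = j
    · subst hij
      simp [Real.mul_self_sqrt (hx i)]
    · simp [hij]
  · intro b _ hb
    have : π b ≠ i := fun h => hb (by rw [← h]; simp)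
    simp [this]
  · intro h; exact absurd (Finset.mem_univ _) h

theorem wperm_right (π : Equiv.Perm (Fin n)) (x : Fin n → ℝ) (hx : ∀ i, 0 ≤ x i) :
    wperm π x * (wperm π x)ᵀ = diagonal (fun i => x (π i)) := by
  ext i j
  rw [Matrix.mul_apply, Matrix.diagonal_apply]
  simp only [Matrix.transpose_apply, wperm, Matrix.of_apply]
  rw [Finset.sum_eq_single (π i)]
  · by_cases hij : i = j
    · subst hij
      simp [Real.mul_self_sqrt (hx _)]
    · have : π j ≠ π i := fun h => hij (π.injective h).symm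
      simp [hij, this]
  · intro b _ hb
    simp [Ne.symm hb]
  · intro h; exact absurd (Finset.mem_univ _) h

/-- the total cost of the cycle structure of a permutation is a value of the trace -/
theorem trace_core_perm (lam l : ℝ) (π : Equiv.Perm (Fin n)) (x : Fin n → ℝ)
    (hx : ∀ i, 0 ≤ x i) :
    (core lam l (wperm π x) (wperm π x)ᵀ
      (diagonal fun i => -((1 + x (π i)) / (1 + x i) ^ 2))).trace =
      ∑ i, (1 - (1 + x (π i)) ^ 2 / (1 + x i) ^ 2 + costP lam l (x i) (x (π i))) := by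
  have h1 : core lam l (wperm π x) (wperm π x)ᵀ
      (diagonal fun i => -((1 + x (π i)) / (1 + x i) ^ 2)) =
      core' lam l (diagonal x) (diagonal fun i => x (π i))
        (diagonal fun i => -((1 + x (π i)) / (1 + x i) ^ 2)) := by
    unfold core core'
    rw [wperm_left π x hx, wperm_right π x hx]
  have h2 := map_core' (Matrix.diagonalAlgHom ℝ (n := Fin n) (α := ℝ)) lam l x
    (fun i => x (π i)) (fun i => -((1 + x (π i)) / (1 + x i) ^ 2))
  simp only [Matrix.diagonalAlgHom_apply] at h2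
  rw [h1, ← h2, Matrix.trace_diagonal]
  refine Finset.sum_congr rfl fun i _ => ?_
  have hα : 1 + x i ≠ 0 := by have := hx i; positivity
  simp only [core', pAB, qB, Pi.add_apply, Pi.mul_apply, Pi.one_apply, Pi.smul_apply,
    Pi.sub_apply, smul_eq_mul, costP]
  have e1 : 1 + -((1 + x (π i)) / (1 + x i) ^ 2) * ((1 + x i) * (1 + x i)) *
      -((1 + x (π i)) / (1 + x i) ^ 2) + -((1 + x (π i)) / (1 + x i) ^ 2) * (1 + x (π i)) +
      (1 + x (π i)) * -((1 + x (π i)) / (1 + x i) ^ 2) =
      1 - (1 + x (π i)) ^ 2 / (1 + x i) ^ 2 := by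
    field_simp
    ring
  rw [e1]
  ring

theorem costP_le {lam l a b K : ℝ} (hlam : 1 < lam) (ha' : a ≤ lam - 1)
    (hb : 0 ≤ b) (hb' : b ≤ lam - 1)
    (hK : K = |mPar lam l| + |m1Par lam l| * (lam - 1) + (lam - 1) ^ 2 + (lam - 1)) :
    costP lam l a b ≤ (b - a) ^ 2 * K := by
  unfold costP
  apply mul_le_mul_of_nonneg_left _ (sq_nonneg _)
  have h1 : mPar lam l ≤ |mPar lam l| := le_abs_self _
  have h2 : m1Par lam l * (1 - lam + b) ≤ |m1Par lam l| * (lam - 1) := by
    calc m1Par lam l * (1 - lam + b) ≤ |m1Par lam l * (1 - lam + b)| := le_abs_self _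
      _ = |m1Par lam l| * |1 - lam + b| := abs_mul _ _
      _ ≤ |m1Par lam l| * (lam - 1) := by
        apply mul_le_mul_of_nonneg_left _ (abs_nonneg _)
        rw [abs_le]; constructor <;> linarith
  have h3 : (1 - lam + b) ^ 2 ≤ (lam - 1) ^ 2 := by
    apply sq_le_sq'
    · linarith
    · linarith
  linarith

theorem exists_trace_core_neg {lam l : ℝ} (hlam : 1 < lam) (hl : Real.log lam < l) :
    ∃ (n : ℕ) (T w : Matrix (Fin n) (Fin n) ℝ), wᵀ = w ∧ (core lam l T Tᵀ w).trace < 0 := by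
  obtain ⟨K, hK⟩ : ∃ K, K = |mPar lam l| + |m1Par lam l| * (lam - 1) + (lam - 1) ^ 2 +
    (lam - 1) := ⟨_, rfl⟩
  have hlam0 : 0 < lam - 1 := by linarith
  have hK0 : 0 < K := by rw [hK]; positivity
  obtain ⟨N, hN⟩ := exists_nat_gt (K * (lam - 1) ^ 2 / (2 * (l - Real.log lam)))
  have hd : 0 < 2 * (l - Real.log lam) := by linarith
  have hN0 : 0 < (N : ℝ) := lt_of_le_of_lt (by positivity) hN
  have hN1 : 0 < N := by exact_mod_cast hN0
  have hN2 : K * (lam - 1) ^ 2 / N < 2 * (l - Real.log lam) := by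
    rw [div_lt_iff₀ hd] at hN
    rw [div_lt_iff₀ hN0]
    linarith
  set x : Fin (N + 1) → ℝ := fun i => (lam - 1) * (1 - (i : ℕ) / N) with hx
  have hx0 : ∀ i, 0 ≤ x i := by
    intro i
    have : ((i : ℕ) : ℝ) ≤ N := by exact_mod_cast Nat.lt_succ_iff.1 i.2
    have h1 : ((i : ℕ) : ℝ) / N ≤ 1 := by rw [div_le_one hN0]; exact this
    have : 0 ≤ 1 - ((i : ℕ) : ℝ) / N := by linarith
    positivity
  have hx1 : ∀ i, x i ≤ lam - 1 := by
    intro i
    have h1 : 0 ≤ ((i : ℕ) : ℝ) / N := by positivity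
    have : x i = (lam - 1) - (lam - 1) * (((i : ℕ) : ℝ) / N) := by rw [hx]; ring
    rw [this]
    have := mul_nonneg hlam0.le h1
    linarith
  refine ⟨N + 1, wperm (finRotate (N + 1)) x,
    diagonal (fun i => -((1 + x ((finRotate (N + 1)) i)) / (1 + x i) ^ 2)),
    Matrix.diagonal_transpose _, ?_⟩
  rw [trace_core_perm lam l (finRotate (N + 1)) x hx0]
  -- the sum of the potential differences vanishes
  have hpot : ∑ i, (2 * Real.log (1 + x i) - 2 * Real.log (1 + x (finRotate (N + 1) i))) = 0 := by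
    rw [Finset.sum_sub_distrib,
      Equiv.sum_comp (finRotate (N + 1)) (fun i => 2 * Real.log (1 + x i)), sub_self]
  rw [Fin.sum_univ_castSucc] at hpot ⊢
  have hlast : x (Fin.last N) = 0 := by
    simp only [hx, Fin.val_last]
    rw [div_self hN0.ne']; ring
  have hrot : finRotate (N + 1) (Fin.last N) = 0 := finRotate_last
  have hzero : x 0 = lam - 1 := by simp [hx]
  rw [hrot, hlast, hzero] at hpot ⊢
  have hlam1 : (1 : ℝ) + (lam - 1) = lam := by ring
  rw [hlam1, add_zero, Real.log_one] at hpot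
  have hjump : 1 - (1 + (lam - 1)) ^ 2 / (1 + 0) ^ 2 + costP lam l 0 (lam - 1) = -2 * l := by
    unfold costP mPar
    have : lam - 1 ≠ 0 := hlam0.ne'
    field_simp
    ring
  rw [hjump]
  have hstep : ∀ i : Fin N, 1 - (1 + x (finRotate (N + 1) i.castSucc)) ^ 2 /
      (1 + x i.castSucc) ^ 2 + costP lam l (x i.castSucc) (x (finRotate (N + 1) i.castSucc)) ≤
      (2 * Real.log (1 + x i.castSucc) - 2 * Real.log (1 + x (finRotate (N + 1) i.castSucc))) +
        ((lam - 1) / N) ^ 2 * K := by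
    intro i
    have hr : finRotate (N + 1) i.castSucc = i.succ := by
      exact finRotate_of_lt (n := N) (k := i) i.2
    rw [hr]
    have hdiff : x i.succ - x i.castSucc = -((lam - 1) / N) := by
      simp only [hx, Fin.val_succ, Fin.val_castSucc]
      push_cast
      ring
    have h1 := costP_le (l := l) hlam (hx1 i.castSucc) (hx0 i.succ)
      (hx1 i.succ) hK
    rw [hdiff, neg_sq] at h1
    have hα : 0 < 1 + x i.castSucc := by have := hx0 i.castSucc; linarith
    have hβ : 0 < 1 + x i.succ := by have := hx0 i.succ; linarith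
    have h2 := Real.log_le_sub_one_of_pos (x := (1 + x i.succ) ^ 2 / (1 + x i.castSucc) ^ 2)
      (by positivity)
    rw [Real.log_div (by positivity) (by positivity), Real.log_pow, Real.log_pow] at h2
    push_cast at h2
    linarith
  have hsum := Finset.sum_le_sum fun i (_ : i ∈ (Finset.univ : Finset (Fin N))) => hstep i
  have hNN : ∑ _i : Fin N, ((lam - 1) / N) ^ 2 * K = K * (lam - 1) ^ 2 / N := by
    rw [Finset.sum_const, Finset.card_univ, Fintype.card_fin, nsmul_eq_mul]
    field_simp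
  have hsum2 : ∑ i : Fin N, ((2 * Real.log (1 + x i.castSucc) -
      2 * Real.log (1 + x (finRotate (N + 1) i.castSucc))) + ((lam - 1) / N) ^ 2 * K) =
      ∑ i : Fin N, (2 * Real.log (1 + x i.castSucc) -
      2 * Real.log (1 + x (finRotate (N + 1) i.castSucc))) + K * (lam - 1) ^ 2 / N := by
    rw [Finset.sum_add_distrib, hNN]
  linarith

end

end Pool.Agent.Lib.MP_0219da_al
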