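import Mathlib

/-!
Definitions for MP_0219da_al (trace-positive noncommutative polynomials and rational sums of
squares).
-/

namespace Pool.Agent.Lib.MP_0219da_al

open Matrix

/-- Noncommutative rational expressions in `g` variables with real constants: formal
expressions built from real constants and the variables by sums, products and inverses. -/
inductive RatExpr (g : ℕ) : Type
  | const : ℝ → RatExpr g
  | var : Fin g → RatExpr g
  | add : RatExpr g → RatExpr g → RatExpr g
  | mul : RatExpr g → RatExpr g → RatExpr g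
  | inv : RatExpr g → RatExpr g

variable {g n : ℕ}

/-- The value of a rational expression at a `g`-tuple of real `n × n` matrices.  (The inverse
of a matrix that is not invertible is the junk value `0`; it is never used, see
`RatExpr.DefinedAt`.) -/
noncomputable def RatExpr.eval (X : Fin g → Matrix (Fin n) (Fin n) ℝ) :
    RatExpr g → Matrix (Fin n) (Fin n) ℝ
  | .const c => c • (1 : Matrix (Fin n) (Fin n) ℝ)
  | .var i => X i
  | .add r s => r.eval X + s.eval X
  | .mul r s => r.eval X * s.eval X
  | .inv r => (r.eval X)⁻¹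

/-- A rational expression is defined at a tuple of matrices if every inverse that occurs in it
is the inverse of an invertible matrix. -/
def RatExpr.DefinedAt (X : Fin g → Matrix (Fin n) (Fin n) ℝ) : RatExpr g → Prop
  | .const _ => True
  | .var _ => True
  | .add r s => r.DefinedAt X ∧ s.DefinedAt X
  | .mul r s => r.DefinedAt X ∧ s.DefinedAt X
  | .inv r => r.DefinedAt X ∧ IsUnit (r.eval X)

/-- A tuple of real symmetric matrices. -/
def SymmTuple (X : Fin g → Matrix (Fin n) (Fin n) ℝ) : Prop := ∀ i, (X i).IsSymm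

/-- A rational expression is nondegenerate if it is defined at some tuple of symmetric matrices
of some size `n ≥ 1`.  Nondegenerate expressions represent the elements of the free skew field;
two of them represent the same element iff they agree at all tuples of symmetric matrices (of
all sizes) at which both are defined. -/
def RatExpr.Nondegenerate (r : RatExpr g) : Prop :=
  ∃ (n : ℕ) (X : Fin g → Matrix (Fin n) (Fin n) ℝ), 0 < n ∧ SymmTuple X ∧ r.DefinedAt X

/-- `p` is trace-positive: `tr p(X) ≥ 0` for all tuples of real symmetric matrices of all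
sizes. -/
def TracePositive (p : FreeAlgebra ℝ (Fin g)) : Prop :=
  ∀ (n : ℕ) (X : Fin g → Matrix (Fin n) (Fin n) ℝ), SymmTuple X →
    0 ≤ (FreeAlgebra.lift ℝ X p).trace

/-- `p = ∑ r_i^* r_i + ∑ [s_j, t_j]` in the free skew field, for some finite families
`r_i`, `(s_j, t_j)` of noncommutative rational functions. The elements of the free skew field
are represented by nondegenerate rational expressions, and equality is equality of values at
all tuples of symmetric matrices at which all the expressions are defined (the involution is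
the transposition there). -/
def IsRationalSOSPlusCommutators (p : FreeAlgebra ℝ (Fin g)) : Prop :=
  ∃ (R : List (RatExpr g)) (S : List (RatExpr g × RatExpr g)),
    (∀ r ∈ R, r.Nondegenerate) ∧
    (∀ s ∈ S, s.1.Nondegenerate ∧ s.2.Nondegenerate) ∧
    ∀ (n : ℕ) (X : Fin g → Matrix (Fin n) (Fin n) ℝ), SymmTuple X →
      (∀ r ∈ R, r.DefinedAt X) → (∀ s ∈ S, s.1.DefinedAt X ∧ s.2.DefinedAt X) →
      FreeAlgebra.lift ℝ X p =
        (R.map fun r => (r.eval X)ᵀ * r.eval X).sum +
        (S.map fun s => s.1.eval X * s.2.eval X - s.2.eval X * s.1.eval X).sum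

/-! ### The polynomial -/

section Poly

variable {k 𝒜 : Type*} [Field k] [Ring 𝒜] [Algebra k 𝒜]

/-- the parameter `m` of the polynomial -/
def mPar (lam l : k) : k := (lam ^ 2 - 1 - 2 * l) / (lam - 1) ^ 2

/-- the parameter `m₁` of the polynomial -/
def m1Par (lam l : k) : k := 2 * ((lam + 1) / lam - mPar lam l) / (lam - 1)

/-- `q(B) = m + m₁ (1 + B - λ) + (1 + B - λ)²` -/
def qB (lam l : k) (B : 𝒜) : 𝒜 :=
  mPar lam l • (1 : 𝒜) + m1Par lam l • ((1 - lam) • (1 : 𝒜) + B) +
    ((1 - lam) • (1 : 𝒜) + B) * ((1 - lam) • (1 : 𝒜) + B)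

/-- the noncommutative version (left `A`, right `B`) of
`(b - a)² (q(b) + a)` -/
def pAB (lam l : k) (A B : 𝒜) : 𝒜 :=
  B * B * qB lam l B - (2 : k) • (A * (B * qB lam l B)) + A * A * qB lam l B +
    A * (B * B) - (2 : k) • (A * A * B) + A * A * A

/-- the core polynomial in `T`, `T' = Tᵀ` and `w` -/
def core (lam l : k) (T T' w : 𝒜) : 𝒜 :=
  1 + w * ((1 + T' * T) * (1 + T' * T)) * w + w * (1 + T * T') + (1 + T * T') * w +
    pAB lam l (T' * T) (T * T')

variable (k)

/-- first block polynomial -/
def e1 (x : 𝒜) : 𝒜 := (1 / 2 : k) • (x * x + x)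

/-- third block polynomial -/
def e3 (x : 𝒜) : 𝒜 := (1 / 2 : k) • (x * x - x)

/-- second block polynomial -/
def e2 (x : 𝒜) : 𝒜 := 1 - x * x

/-- the substitution for `T` -/
def tau (x y : 𝒜) : 𝒜 := e1 k x * y * e2 x * y * e3 k x * y * e1 k x

/-- the substitution for `Tᵀ` -/
def tau' (x y : 𝒜) : 𝒜 := e1 k x * y * e3 k x * y * e2 x * y * e1 k x

/-- the substitution for `w` -/
def omega (x y : 𝒜) : 𝒜 := -1 + e1 k x * y * e1 k x

variable {k}

/-- the polynomial in two variables -/
def pForm (lam l : k) (x y : 𝒜) : 𝒜 :=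
  core lam l (tau k x y) (tau' k x y) (omega k x y)

end Poly

/-- the polynomial in `g ≥ 2` variables -/
noncomputable def pPoly (g : ℕ) (hg : 2 ≤ g) (lam l : ℝ) : FreeAlgebra ℝ (Fin g) :=
  pForm lam l (FreeAlgebra.ι ℝ ⟨0, by omega⟩) (FreeAlgebra.ι ℝ ⟨1, by omega⟩)

end Pool.Agent.Lib.MP_0219da_al
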