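import Pool.Agent.Lib.MP_0219da_al.Defs

/-!
Rational symmetric tuples at which given nondegenerate rational expressions are defined are dense
in the symmetric tuples of suitable sizes.
-/

namespace Pool.Agent.Lib.MP_0219da_al

open Matrix Topology

variable {g : ℕ}

namespace RatExpr

/-- ring homomorphisms between matrix rings commute with evaluation -/
theorem eval_map {n M : ℕ} (φ : Matrix (Fin n) (Fin n) ℝ →+* Matrix (Fin M) (Fin M) ℝ)
    (hφ : ∀ c : ℝ, φ (c • 1) = c • 1) (X : Fin g → Matrix (Fin n) (Fin n) ℝ) (r : RatExpr g)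
    (hr : r.DefinedAt X) :
    r.DefinedAt (fun i => φ (X i)) ∧ r.eval (fun i => φ (X i)) = φ (r.eval X) := by
  induction r with
  | const c => exact ⟨trivial, (hφ c).symm⟩
  | var i => exact ⟨trivial, rfl⟩
  | add r s ihr ihs =>
    obtain ⟨h1, h2⟩ := hr
    obtain ⟨h3, h4⟩ := ihr h1
    obtain ⟨h5, h6⟩ := ihs h2
    refine ⟨⟨h3, h5⟩, ?_⟩
    simp only [RatExpr.eval] at *
    rw [h4, h6, map_add]
  | mul r s ihr ihs =>
    obtain ⟨h1, h2⟩ := hr
    obtain ⟨h3, h4⟩ := ihr h1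
    obtain ⟨h5, h6⟩ := ihs h2
    refine ⟨⟨h3, h5⟩, ?_⟩
    simp only [RatExpr.eval] at *
    rw [h4, h6, map_mul]
  | inv r ihr =>
    obtain ⟨h1, h2⟩ := hr
    obtain ⟨h3, h4⟩ := ihr h1
    refine ⟨⟨h3, ?_⟩, ?_⟩
    · rw [h4]; exact h2.map φ
    · simp only [RatExpr.eval] at *
      rw [h4]
      apply Matrix.inv_eq_right_inv
      rw [← map_mul, Matrix.mul_nonsing_inv _ ((Matrix.isUnit_iff_isUnit_det _).mp h2), map_one]

end RatExpr

/-- passing to a multiple of the size -/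
theorem defined_of_dvd {n M : ℕ} (h : n ∣ M) (r : RatExpr g) (X : Fin g → Matrix (Fin n) (Fin n) ℝ)
    (hX : SymmTuple X) (hr : r.DefinedAt X) :
    ∃ X' : Fin g → Matrix (Fin M) (Fin M) ℝ, SymmTuple X' ∧ r.DefinedAt X' := by
  obtain ⟨k, rfl⟩ := h
  let φ : Matrix (Fin n) (Fin n) ℝ →+* Matrix (Fin (n * k)) (Fin (n * k)) ℝ :=
    ((Matrix.reindexAlgEquiv ℝ ℝ (finProdFinEquiv (m := n) (n := k))).toRingEquiv.toRingHom.comp
      (Matrix.blockDiagonalRingHom (Fin n) (Fin k) ℝ)).comp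
      (RingHom.pi fun _ : Fin k => RingHom.id (Matrix (Fin n) (Fin n) ℝ))
  have hφ : ∀ A, φ A = Matrix.reindex finProdFinEquiv finProdFinEquiv
      (Matrix.blockDiagonal fun _ : Fin k => A) := fun A => rfl
  refine ⟨fun i => φ (X i), ?_, (RatExpr.eval_map φ ?_ X r hr).1⟩
  · intro i
    show (φ (X i)).IsSymm
    rw [hφ]
    have h1 := hX i
    unfold Matrix.IsSymm at h1 ⊢
    rw [Matrix.transpose_reindex, Matrix.blockDiagonal_transpose]
    simp only [h1]
  · intro c
    have h1 : ∀ B : Matrix (Fin n × Fin k) (Fin n × Fin k) ℝ,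
        (Matrix.reindex finProdFinEquiv finProdFinEquiv) (c • B) =
        c • Matrix.reindex finProdFinEquiv finProdFinEquiv B := fun B => rfl
    have h2 : (Matrix.blockDiagonal fun _ : Fin k => (c • 1 : Matrix (Fin n) (Fin n) ℝ)) =
        c • (Matrix.blockDiagonal fun _ : Fin k => (1 : Matrix (Fin n) (Fin n) ℝ)) := by
      rw [← Matrix.blockDiagonal_smul]; rfl
    have h3 : φ (c • 1) = c • φ 1 := by
      rw [hφ, h2, h1, ← hφ]
    rw [h3, map_one]

section Param

variable {n : ℕ}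

/-- parametrisation of the symmetric tuples -/
def par (Z : Fin g × Fin n × Fin n → ℝ) : Fin g → Matrix (Fin n) (Fin n) ℝ :=
  fun i => Matrix.of fun a b => Z (i, a, b) + Z (i, b, a)

theorem par_symm (Z : Fin g × Fin n × Fin n → ℝ) : SymmTuple (par Z) := by
  intro i
  ext a b
  simp [par, add_comm]

open MvPolynomial in
theorem rep (r : RatExpr g) (Z₀ : Fin g × Fin n × Fin n → ℝ) (h : r.DefinedAt (par Z₀)) :
    ∃ (D : MvPolynomial (Fin g × Fin n × Fin n) ℝ)
      (Q : Matrix (Fin n) (Fin n) (MvPolynomial (Fin g × Fin n × Fin n) ℝ)),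
      MvPolynomial.eval Z₀ D ≠ 0 ∧ ∀ Z, MvPolynomial.eval Z D ≠ 0 → r.DefinedAt (par Z) ∧
        MvPolynomial.eval Z D • r.eval (par Z) = (MvPolynomial.eval Z).mapMatrix Q := by
  induction r with
  | const c =>
    refine ⟨1, Matrix.scalar _ (C c), by simp, fun Z _ => ⟨trivial, ?_⟩⟩
    ext a b
    simp only [RatExpr.eval, map_one, RingHom.mapMatrix_apply, Matrix.map_apply,
      Matrix.scalar_apply, Matrix.smul_apply, Matrix.one_apply, Matrix.diagonal_apply, smul_eq_mul]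
    by_cases hab : a = b <;> simp [hab]
  | var i =>
    refine ⟨1, Matrix.of fun a b => X (i, a, b) + X (i, b, a), by simp,
      fun Z _ => ⟨trivial, ?_⟩⟩
    ext a b
    simp [RatExpr.eval, par]
  | add r s ihr ihs =>
    obtain ⟨h1, h2⟩ := h
    obtain ⟨D1, Q1, hD1, hQ1⟩ := ihr h1
    obtain ⟨D2, Q2, hD2, hQ2⟩ := ihs h2
    refine ⟨D1 * D2, D2 • Q1 + D1 • Q2, by rw [map_mul]; exact mul_ne_zero hD1 hD2, ?_⟩
    intro Z hZ
    rw [map_mul] at hZ
    obtain ⟨h3, h4⟩ := hQ1 Z (left_ne_zero_of_mul hZ)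
    obtain ⟨h5, h6⟩ := hQ2 Z (right_ne_zero_of_mul hZ)
    refine ⟨⟨h3, h5⟩, ?_⟩
    have e1 : (MvPolynomial.eval Z).mapMatrix (D2 • Q1) =
        MvPolynomial.eval Z D2 • (MvPolynomial.eval Z).mapMatrix Q1 := by
      ext a b; simp
    have e2 : (MvPolynomial.eval Z).mapMatrix (D1 • Q2) =
        MvPolynomial.eval Z D1 • (MvPolynomial.eval Z).mapMatrix Q2 := by
      ext a b; simp
    rw [map_add, e1, e2, ← h4, ← h6, map_mul]
    show _ • (r.eval (par Z) + s.eval (par Z)) = _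
    rw [smul_add, smul_smul, smul_smul, mul_comm (MvPolynomial.eval Z D2)]
  | mul r s ihr ihs =>
    obtain ⟨h1, h2⟩ := h
    obtain ⟨D1, Q1, hD1, hQ1⟩ := ihr h1
    obtain ⟨D2, Q2, hD2, hQ2⟩ := ihs h2
    refine ⟨D1 * D2, Q1 * Q2, by rw [map_mul]; exact mul_ne_zero hD1 hD2, ?_⟩
    intro Z hZ
    rw [map_mul] at hZ
    obtain ⟨h3, h4⟩ := hQ1 Z (left_ne_zero_of_mul hZ)
    obtain ⟨h5, h6⟩ := hQ2 Z (right_ne_zero_of_mul hZ)
    refine ⟨⟨h3, h5⟩, ?_⟩
    have e1 : (MvPolynomial.eval Z).mapMatrix (Q1 * Q2) =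
        (MvPolynomial.eval Z).mapMatrix Q1 * (MvPolynomial.eval Z).mapMatrix Q2 := map_mul _ _ _
    rw [e1, ← h4, ← h6, map_mul]
    show _ • (r.eval (par Z) * s.eval (par Z)) = _
    rw [smul_mul_smul_comm]
  | inv r ihr =>
    obtain ⟨h1, h2⟩ := h
    obtain ⟨D1, Q1, hD1, hQ1⟩ := ihr h1
    have hdet : ∀ Z, MvPolynomial.eval Z Q1.det = ((MvPolynomial.eval Z).mapMatrix Q1).det :=
      fun Z => RingHom.map_det _ _
    refine ⟨D1 * Q1.det, (D1 ^ 2) • Q1.adjugate, ?_, ?_⟩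
    · rw [map_mul, hdet, ← (hQ1 Z₀ hD1).2]
      refine mul_ne_zero hD1 ?_
      rw [Matrix.det_smul]
      refine mul_ne_zero (pow_ne_zero _ hD1) ?_
      exact ((Matrix.isUnit_iff_isUnit_det _).mp h2).ne_zero
    · intro Z hZ
      rw [map_mul, hdet] at hZ
      have hd1 := left_ne_zero_of_mul hZ
      have hd2 := right_ne_zero_of_mul hZ
      obtain ⟨h3, h4⟩ := hQ1 Z hd1
      have h5 : (r.eval (par Z)).det ≠ 0 := by
        intro h0
        apply hd2
        rw [← h4, Matrix.det_smul, h0, mul_zero]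
      refine ⟨⟨h3, (Matrix.isUnit_iff_isUnit_det _).mpr (isUnit_iff_ne_zero.mpr h5)⟩, ?_⟩
      have e1 : (MvPolynomial.eval Z).mapMatrix ((D1 ^ 2) • Q1.adjugate) =
          (MvPolynomial.eval Z D1) ^ 2 • ((MvPolynomial.eval Z).mapMatrix Q1).adjugate := by
        rw [← RingHom.map_adjugate]
        ext a b; simp
      rw [e1, map_mul, hdet]
      show _ • (r.eval (par Z))⁻¹ = _
      set d := MvPolynomial.eval Z D1 with hd
      set A := r.eval (par Z) with hA
      set B := (MvPolynomial.eval Z).mapMatrix Q1 with hB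
      have h6 : A = d⁻¹ • B := by rw [← h4, smul_smul, inv_mul_cancel₀ hd1, one_smul]
      have h7 : A⁻¹ = (d * B.det⁻¹) • B.adjugate := by
        apply Matrix.inv_eq_right_inv
        rw [h6, smul_mul_smul_comm, Matrix.mul_adjugate, smul_smul]
        have : d⁻¹ * (d * B.det⁻¹) * B.det = 1 := by field_simp
        rw [this, one_smul]
      rw [h7, smul_smul]
      congr 1
      field_simp

theorem isOpen_eval_ne (D : MvPolynomial (Fin g × Fin n × Fin n) ℝ) :
    IsOpen {Z | MvPolynomial.eval Z D ≠ 0} :=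
  isOpen_ne.preimage (MvPolynomial.continuous_eval D)

theorem dense_ne (D : MvPolynomial (Fin g × Fin n × Fin n) ℝ) (hD : D ≠ 0) :
    Dense {Z | MvPolynomial.eval Z D ≠ 0} := by
  obtain ⟨Z1, hZ1⟩ : ∃ Z1, MvPolynomial.eval Z1 D ≠ 0 := by
    by_contra h
    push Not at h
    apply hD
    apply MvPolynomial.funext
    intro x
    rw [h x, map_zero]
  intro Z
  let p : Polynomial ℝ := MvPolynomial.aeval
    (fun i => Polynomial.C (Z i) + Polynomial.X * Polynomial.C (Z1 i - Z i)) D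
  have hp : ∀ t : ℝ, p.eval t = MvPolynomial.eval (fun i => Z i + t * (Z1 i - Z i)) D := by
    intro t
    have h1 : p.eval t = (Polynomial.evalRingHom t) (MvPolynomial.aeval
      (fun i => Polynomial.C (Z i) + Polynomial.X * Polynomial.C (Z1 i - Z i)) D) := rfl
    rw [h1, MvPolynomial.aeval_def, MvPolynomial.hom_eval₂]
    show MvPolynomial.eval₂ _ _ D = MvPolynomial.eval₂ _ _ D
    congr 1
    · ext x; simp
    · funext i; simp
  have hp0 : p ≠ 0 := by
    intro h0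
    apply hZ1
    have := hp 1
    rw [h0, Polynomial.eval_zero] at this
    rw [this]
    congr 1
    congr 1
    funext i; ring
  have hdense : Dense {t : ℝ | p.eval t ≠ 0} := by
    have h1 : {t : ℝ | p.eval t ≠ 0} = {t : ℝ | p.IsRoot t}ᶜ := rfl
    rw [h1]
    exact (Polynomial.finite_setOfPred_isRoot hp0).countable.dense_compl ℝ
  have hcont : Continuous fun t : ℝ => (fun i => Z i + t * (Z1 i - Z i)) := by fun_prop
  have h0 : (fun i => Z i + (0 : ℝ) * (Z1 i - Z i)) = Z := by funext i; ring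
  rw [← h0]
  refine map_mem_closure (f := fun t : ℝ => (fun i => Z i + t * (Z1 i - Z i))) hcont (hdense 0) ?_
  intro t ht
  show MvPolynomial.eval _ D ≠ 0
  rw [← hp]; exact ht

theorem dense_rat : Dense {Z : Fin g × Fin n × Fin n → ℝ | ∀ i, ∃ q : ℚ, Z i = (q : ℝ)} := by
  have h1 : DenseRange (Pi.map fun (_ : Fin g × Fin n × Fin n) (q : ℚ) => (q : ℝ)) :=
    DenseRange.piMap fun _ => Rat.denseRange_cast
  refine h1.mono ?_
  rintro _ ⟨q, rfl⟩ i
  exact ⟨q i, rfl⟩

theorem continuous_par : Continuous (par : (Fin g × Fin n × Fin n → ℝ) → _) := by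
  apply continuous_pi
  intro i
  apply continuous_matrix
  intro a b
  show Continuous fun Z : Fin g × Fin n × Fin n → ℝ => Z (i, a, b) + Z (i, b, a)
  fun_prop

end Param

theorem mem_closure_rational_defined {g : ℕ} (L : List (RatExpr g))
    (hL : ∀ r ∈ L, r.Nondegenerate) :
    ∃ N : ℕ, 0 < N ∧ ∀ (m : ℕ), 0 < m → ∀ X : Fin g → Matrix (Fin (N * m)) (Fin (N * m)) ℝ,
      SymmTuple X →
      X ∈ closure {X' : Fin g → Matrix (Fin (N * m)) (Fin (N * m)) ℝ | SymmTuple X' ∧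
        (∀ i a b, ∃ q : ℚ, X' i a b = (q : ℝ)) ∧ ∀ r ∈ L, r.DefinedAt X'} := by
  -- the size
  have hN : ∃ N : ℕ, 0 < N ∧ ∀ M : ℕ, N ∣ M → ∀ r ∈ L,
      ∃ X' : Fin g → Matrix (Fin M) (Fin M) ℝ, SymmTuple X' ∧ r.DefinedAt X' := by
    induction L with
    | nil => exact ⟨1, one_pos, fun M _ r hr => by simp at hr⟩
    | cons r L ih =>
      obtain ⟨N, hN, h1⟩ := ih fun s hs => hL s (List.mem_cons_of_mem r hs)
      obtain ⟨n, X, hn, hX, hr⟩ := hL r List.mem_cons_self
      refine ⟨n * N, Nat.mul_pos hn hN, fun M hM s hs => ?_⟩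
      rcases List.mem_cons.mp hs with rfl | hs
      · exact defined_of_dvd ((Dvd.intro _ rfl).trans hM) s X hX hr
      · exact h1 M ((Dvd.intro_left _ rfl).trans hM) s hs
  obtain ⟨N, hN0, hN⟩ := hN
  refine ⟨N, hN0, fun m hm X hX => ?_⟩
  have h1 := hN (N * m) (Dvd.intro _ rfl)
  clear hN
  generalize N * m = M at X hX h1 ⊢
  -- the polynomial
  have h2 : ∃ D : MvPolynomial (Fin g × Fin M × Fin M) ℝ, D ≠ 0 ∧
      ∀ Z, MvPolynomial.eval Z D ≠ 0 → ∀ r ∈ L, r.DefinedAt (par Z) := by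
    clear hL
    induction L with
    | nil => exact ⟨1, one_ne_zero, fun Z _ r hr => by simp at hr⟩
    | cons r L ih =>
      obtain ⟨D, hD, hDL⟩ := ih fun s hs => h1 s (List.mem_cons_of_mem r hs)
      obtain ⟨X0, hX0, hr⟩ := h1 r List.mem_cons_self
      have h3 : par (fun j : Fin g × Fin M × Fin M => X0 j.1 j.2.1 j.2.2 / 2) = X0 := by
        funext i
        ext a b
        have h4 : X0 i b a = X0 i a b := by
          have := congrFun (congrFun (hX0 i) a) b
          rwa [Matrix.transpose_apply] at this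
        simp only [par, Matrix.of_apply]
        rw [h4]; ring
      obtain ⟨D1, Q, hD1, hQ⟩ := rep r
        (fun j : Fin g × Fin M × Fin M => X0 j.1 j.2.1 j.2.2 / 2) (by rw [h3]; exact hr)
      refine ⟨D1 * D, mul_ne_zero (by rintro rfl; simp at hD1) hD, fun Z hZ s hs => ?_⟩
      rw [map_mul] at hZ
      rcases List.mem_cons.mp hs with rfl | hs
      · exact (hQ Z (left_ne_zero_of_mul hZ)).1
      · exact hDL Z (right_ne_zero_of_mul hZ) s hs
  obtain ⟨D, hD, hDL⟩ := h2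
  have h3 : par (fun j : Fin g × Fin M × Fin M => X j.1 j.2.1 j.2.2 / 2) = X := by
    funext i
    ext a b
    have h4 : X i b a = X i a b := by
      have := congrFun (congrFun (hX i) a) b
      rwa [Matrix.transpose_apply] at this
    simp only [par, Matrix.of_apply]
    rw [h4]; ring
  have h4 := (dense_ne D hD).inter_of_isOpen_left (dense_rat (g := g) (n := M)) (isOpen_eval_ne D)
  rw [← h3]
  refine map_mem_closure continuous_par (h4 _) ?_
  rintro Z ⟨hZ1, hZ2⟩
  refine ⟨par_symm Z, fun i a b => ?_, hDL Z hZ1⟩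
  obtain ⟨q, hq⟩ := hZ2 (i, a, b)
  obtain ⟨q', hq'⟩ := hZ2 (i, b, a)
  refine ⟨q + q', ?_⟩
  simp only [par, Matrix.of_apply]
  rw [hq, hq']
  push_cast
  rfl

end Pool.Agent.Lib.MP_0219da_al
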