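import Mathlib

/-!
Real specialisation moving one transcendental number.
-/

open Filter Topology Polynomial

namespace Pool.Agent.Lib.MP_0219da_al

/-- Extension of a ring homomorphism to a simple extension. -/
theorem ext_hom {L M R' : Type*} [Field L] [Field M] [Algebra L M] (pb : PowerBasis L M)
    [Field R'] (φ : L →+* R') (y : R') (hy : (minpoly L pb.gen).eval₂ φ y = 0) :
    ∃ ψ : M →+* R', ∀ z, ψ (algebraMap L M z) = φ z := by
  let _ := φ.toAlgebra
  have h : aeval y (minpoly L pb.gen) = 0 := hy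
  exact ⟨(pb.lift y h : M →+* R'), fun z => (pb.lift y h).commutes z⟩

/-- A simple root of a real polynomial is a point of sign change. -/
theorem exists_sign_change (f : ℝ[X]) (θ : ℝ) (h0 : f.eval θ = 0) (h1 : f.derivative.eval θ ≠ 0) :
    ∃ x1 x2 : ℝ, x1 < x2 ∧ f.eval x1 * f.eval x2 < 0 := by
  have h2 : HasDerivAt (fun x => f.eval x) (f.derivative.eval θ) θ := f.hasDerivAt θ
  rw [hasDerivAt_iff_tendsto_slope] at h2
  have h3 : Tendsto (fun x => slope (fun x => f.eval x) θ x * f.derivative.eval θ) (𝓝[≠] θ)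
      (𝓝 (f.derivative.eval θ * f.derivative.eval θ)) := h2.mul_const _
  have h4 : ∀ᶠ x in 𝓝[≠] θ, 0 < slope (fun x => f.eval x) θ x * f.derivative.eval θ :=
    h3.eventually_const_lt (mul_self_pos.mpr h1)
  rw [eventually_nhdsWithin_iff, Metric.eventually_nhds_iff] at h4
  obtain ⟨ε, hε, h5⟩ := h4
  have ha := h5 (y := θ - ε / 2) (by
    rw [Real.dist_eq]
    have : θ - ε / 2 - θ = -(ε / 2) := by ring
    rw [this, abs_neg, abs_of_pos (by positivity)]; linarith) (by
    simp only [Set.mem_compl_iff, Set.mem_singleton_iff]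
    linarith)
  have hb := h5 (y := θ + ε / 2) (by
    rw [Real.dist_eq]
    have : θ + ε / 2 - θ = (ε / 2) := by ring
    rw [this, abs_of_pos (by positivity)]; linarith) (by
    simp only [Set.mem_compl_iff, Set.mem_singleton_iff]
    linarith)
  refine ⟨θ - ε / 2, θ + ε / 2, by linarith, ?_⟩
  rw [slope_def_field, h0, sub_zero] at ha hb
  have e1 : θ - ε / 2 - θ = -(ε / 2) := by ring
  have e2 : θ + ε / 2 - θ = (ε / 2) := by ring
  rw [e1] at ha
  rw [e2] at hb
  have h6 := mul_pos ha hb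
  have h7 : eval (θ - ε / 2) f / -(ε / 2) * eval θ (derivative f) *
      (eval (θ + ε / 2) f / (ε / 2) * eval θ (derivative f)) =
      -(eval (θ - ε / 2) f * eval (θ + ε / 2) f) * (eval θ (derivative f) / (ε / 2)) ^ 2 := by
    field_simp
  rw [h7] at h6
  have h8 : 0 < -(eval (θ - ε / 2) f * eval (θ + ε / 2) f) :=
    pos_of_mul_pos_left h6 (by positivity)
  linarith

/-- Abstract form: a limit of embeddings of a field extends, with the embeddings, to finite
extensions. -/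
theorem exists_extension {L : Type*} [Field L] [CharZero L] (φ : ℕ → L →+* ℝ) (φ0 : L →+* ℝ)
    (hφ : ∀ z, Tendsto (fun n => φ n z) atTop (𝓝 (φ0 z))) (S : Finset ℝ)
    (hS : ∀ s ∈ S, ∃ p : L[X], p ≠ 0 ∧ p.eval₂ φ0 s = 0) :
    ∃ (F : Subfield ℝ) (hF : ∀ z, φ0 z ∈ F) (n : ℕ) (σ : F →+* ℝ), (∀ s ∈ S, s ∈ F) ∧
      ∀ z, σ ⟨φ0 z, hF z⟩ = φ n z := by
  let _ : Algebra L ℝ := φ0.toAlgebra
  have halg : ∀ z, algebraMap L ℝ z = φ0 z := fun z => rfl
  have hint : ∀ s ∈ (S : Set ℝ), IsIntegral L s := by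
    intro s hs
    rw [← isAlgebraic_iff_isIntegral]
    obtain ⟨p, hp, hp2⟩ := hS s hs
    exact ⟨p, hp, hp2⟩
  have : Finite (S : Set ℝ) := S.finite_toSet
  have hfd : FiniteDimensional L (IntermediateField.adjoin L (S : Set ℝ)) :=
    IntermediateField.finiteDimensional_adjoin hint
  set M := IntermediateField.adjoin L (S : Set ℝ) with hM
  let pb : PowerBasis L M := Field.powerBasisOfFiniteOfSeparable L M
  set f := minpoly L pb.gen with hf
  have hroot : (f.map φ0).eval (pb.gen : ℝ) = 0 := by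
    have h1 : aeval (pb.gen : ℝ) f = 0 := by
      have h2 := minpoly.aeval L pb.gen
      have h3 := congrArg (fun x : M => (x : ℝ)) h2
      beta_reduce at h3
      have h4 : ((aeval pb.gen (minpoly L pb.gen) : M) : ℝ) =
          aeval (pb.gen : ℝ) (minpoly L pb.gen) := by
        have := aeval_algHom_apply M.val pb.gen (minpoly L pb.gen)
        exact this.symm
      rw [h4] at h3
      exact h3
    rw [eval_map]
    exact h1
  have hsep : f.Separable := (Algebra.IsSeparable.isSeparable L pb.gen)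
  have hder : (f.map φ0).derivative.eval (pb.gen : ℝ) ≠ 0 := by
    have h1 : (f.map φ0).Separable := hsep.map
    obtain ⟨a, b, hab⟩ := h1
    intro h2
    have h3 := congrArg (fun p : ℝ[X] => p.eval (pb.gen : ℝ)) hab
    simp only [eval_add, eval_mul, hroot, h2, mul_zero, add_zero, eval_one] at h3
    exact zero_ne_one h3
  obtain ⟨x1, x2, hx, hsign⟩ := exists_sign_change _ _ hroot hder
  have hlim : ∀ x : ℝ, Tendsto (fun n => (f.map (φ n)).eval x) atTop (𝓝 ((f.map φ0).eval x)) := by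
    intro x
    simp only [eval_map, eval₂_eq_sum_range]
    apply tendsto_finsetSum
    intro i _
    exact (hφ _).mul_const _
  have h5 : ∀ᶠ n in atTop, (f.map (φ n)).eval x1 * (f.map (φ n)).eval x2 < 0 :=
    ((hlim x1).mul (hlim x2)).eventually_lt_const hsign
  obtain ⟨n, hn⟩ := h5.exists
  obtain ⟨y, hy⟩ : ∃ y : ℝ, (f.map (φ n)).eval y = 0 := by
    have hc : ContinuousOn (fun x => (f.map (φ n)).eval x) (Set.Icc x1 x2) :=
      (Polynomial.continuous _).continuousOn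
    rcases mul_neg_iff.mp hn with ⟨h6, h7⟩ | ⟨h6, h7⟩
    · obtain ⟨y, -, hy⟩ := intermediate_value_Icc' hx.le hc ⟨h7.le, h6.le⟩
      exact ⟨y, hy⟩
    · obtain ⟨y, -, hy⟩ := intermediate_value_Icc hx.le hc ⟨h6.le, h7.le⟩
      exact ⟨y, hy⟩
  rw [eval_map] at hy
  obtain ⟨ψ, hψ⟩ := ext_hom pb (φ n) y hy
  refine ⟨M.toSubfield, fun z => M.algebraMap_mem z, n, ψ, fun s hs => ?_, fun z => hψ z⟩
  exact IntermediateField.subset_adjoin L _ hs

theorem exists_real_hom (lam l : ℝ) (h : AlgebraicIndependent ℚ ![lam, l]) (S : Finset ℝ) :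
    ∃ (F : Subfield ℝ) (hlam : lam ∈ F) (hl : l ∈ F) (σ : F →+* ℝ),
      (∀ s ∈ S, s ∈ F) ∧ σ ⟨lam, hlam⟩ = lam ∧ l < σ ⟨l, hl⟩ := by
  obtain ⟨B, hBs, hB⟩ := exists_isTranscendenceBasis_superset h.coe_range
  have hlamB : lam ∈ B := hBs ⟨0, rfl⟩
  have hlB : l ∈ B := hBs ⟨1, rfl⟩
  have hne : lam ≠ l := by
    intro h1
    have h2 : (0 : Fin 2) = 1 := h.injective (by simpa using h1)
    exact absurd h2 (by decide)
  set E : Subalgebra ℚ ℝ := Algebra.adjoin ℚ (B \ {l}) with hE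
  have htr : Transcendental E l := by
    have h1 := hB.1.transcendental_adjoin (s := {i : B | (i : ℝ) ≠ l}) (i := ⟨l, hlB⟩) (by simp)
    have h2 : (Subtype.val '' {i : B | (i : ℝ) ≠ l}) = B \ {l} := by
      ext x
      simp only [Set.mem_image, Set.mem_ofPred_eq, Subtype.exists, Set.mem_sdiff,
        Set.mem_singleton_iff]
      constructor
      · rintro ⟨y, hy, h3, rfl⟩
        exact ⟨hy, h3⟩
      · rintro ⟨hy, h3⟩
        exact ⟨x, hy, h3, rfl⟩
    rw [h2] at h1
    exact h1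
  have htr' : ∀ t : ℚ, Transcendental E (l + t) := by
    intro t ht
    apply htr
    have h1 : IsAlgebraic E ((t : ℚ) : ℝ) := by
      have : ((t : ℚ) : ℝ) = algebraMap E ℝ (algebraMap ℚ E t) := rfl
      rw [this]
      exact isAlgebraic_algebraMap _
    have h2 := ht.sub h1
    rwa [add_sub_cancel_right] at h2
  have hinj : ∀ t : ℚ, Function.Injective ((aeval (l + t) : E[X] →ₐ[E] ℝ) : E[X] →+* ℝ) :=
    fun t => transcendental_iff_injective.mp (htr' t)
  let Φ : ℚ → FractionRing E[X] →+* ℝ := fun t => IsFractionRing.lift (hinj t)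
  have hΦ : ∀ (t : ℚ) (a : E[X]), Φ t (algebraMap _ _ a) = aeval (l + t) a := by
    intro t a
    exact IsFractionRing.lift_algebraMap (hinj t) a
  have hCZ : CharZero (FractionRing E[X]) := (Φ 0).charZero
  have hlim : ∀ z, Tendsto (fun n : ℕ => Φ (1 / ((n : ℚ) + 1)) z) atTop (𝓝 (Φ 0 z)) := by
    intro z
    obtain ⟨a, b, hb, rfl⟩ := IsFractionRing.div_surjective (A := E[X]) z
    have hb0 : b ≠ 0 := nonZeroDivisors.ne_zero hb
    simp only [map_div₀, hΦ]
    have h1 : ∀ a : E[X], Tendsto (fun n : ℕ => aeval (l + ((1 / ((n : ℚ) + 1) : ℚ) : ℝ)) a) atTop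
        (𝓝 (aeval (l + ((0 : ℚ) : ℝ)) a)) := by
      intro a
      have h2 : Continuous fun x : ℝ => aeval x a := a.continuous_aeval
      refine (h2.tendsto _).comp ?_
      apply Tendsto.add tendsto_const_nhds
      have h3 := tendsto_one_div_add_atTop_nhds_zero_nat (𝕜 := ℝ)
      simpa using h3
    refine (h1 a).div (h1 b) ?_
    intro h2
    exact hb0 ((map_eq_zero_iff _ (hinj 0)).mp h2)
  have hS : ∀ s ∈ S, ∃ p : (FractionRing E[X])[X], p ≠ 0 ∧ p.eval₂ (Φ 0) s = 0 := by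
    intro s _
    obtain ⟨p, hp, hps⟩ := hB.isAlgebraic.isAlgebraic s
    let φQ : E[X] →ₐ[ℚ] ℝ := (aeval (l + ((0 : ℚ) : ℝ)) : E[X] →ₐ[E] ℝ).restrictScalars ℚ
    have hφQ : Function.Injective φQ := hinj 0
    have hT : Algebra.adjoin ℚ (Set.range (Subtype.val : B → ℝ)) ≤ φQ.range := by
      rw [Algebra.adjoin_le_iff]
      rintro _ ⟨⟨b, hb⟩, rfl⟩
      by_cases h1 : b = l
      · refine ⟨X, ?_⟩
        change aeval (l + ((0 : ℚ) : ℝ)) (X : E[X]) = b
        rw [aeval_X, h1]; simp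
      · refine ⟨C ⟨b, Algebra.subset_adjoin ⟨hb, h1⟩⟩, ?_⟩
        change aeval (l + ((0 : ℚ) : ℝ)) (C _ : E[X]) = b
        rw [aeval_C]; rfl
    let e := AlgEquiv.ofInjective φQ hφQ
    let j : Algebra.adjoin ℚ (Set.range (Subtype.val : B → ℝ)) →+* FractionRing E[X] :=
      (algebraMap E[X] (FractionRing E[X])).comp
        ((e.symm : φQ.range →+* E[X]).comp (Subalgebra.inclusion hT : _ →+* φQ.range))
    have hj : ∀ x, Φ 0 (j x) = (x : ℝ) := by
      intro x
      change Φ 0 (algebraMap _ _ (e.symm (Subalgebra.inclusion hT x))) = _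
      rw [hΦ]
      have h1 : (e (e.symm (Subalgebra.inclusion hT x)) : ℝ) = (x : ℝ) := by
        rw [e.apply_symm_apply]; rfl
      exact h1
    have hjinj : Function.Injective j := by
      intro x y hxy
      have h1 := hj x
      rw [hxy, hj y] at h1
      exact Subtype.ext h1.symm
    refine ⟨p.map j, (Polynomial.map_ne_zero_iff hjinj).mpr hp, ?_⟩
    rw [eval₂_map]
    have h2 : (Φ 0).comp j = algebraMap _ ℝ := by
      ext x
      exact hj x
    rw [h2]
    exact hps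
  obtain ⟨F, hF, n, σ, hSF, hσ⟩ := exists_extension (fun n : ℕ => Φ (1 / ((n : ℚ) + 1))) (Φ 0)
    hlim S hS
  have hlamE : lam ∈ E := Algebra.subset_adjoin ⟨hlamB, hne⟩
  have h1 : Φ 0 (algebraMap _ _ (C (⟨lam, hlamE⟩ : E) : E[X])) = lam := by
    rw [hΦ, aeval_C]; rfl
  have h2 : Φ 0 (algebraMap _ _ (X : E[X])) = l := by
    rw [hΦ, aeval_X]; simp
  have h3 := hσ (algebraMap _ _ (C (⟨lam, hlamE⟩ : E) : E[X]))
  have h4 := hσ (algebraMap _ _ (X : E[X]))
  refine ⟨F, h1 ▸ hF _, h2 ▸ hF _, σ, hSF, ?_, ?_⟩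
  · have h5 : (⟨lam, h1 ▸ hF _⟩ : F) =
        ⟨Φ 0 (algebraMap _ _ (C (⟨lam, hlamE⟩ : E) : E[X])), hF _⟩ := Subtype.ext h1.symm
    rw [h5, h3, hΦ, aeval_C]; rfl
  · have h5 : (⟨l, h2 ▸ hF _⟩ : F) =
        ⟨Φ 0 (algebraMap _ _ (X : E[X])), hF _⟩ := Subtype.ext h2.symm
    rw [h5, h4, hΦ, aeval_X]
    have h6 : (0 : ℝ) < ((1 / ((n : ℚ) + 1) : ℚ) : ℝ) := by
      have : (0 : ℚ) < 1 / ((n : ℚ) + 1) := by positivity
      exact_mod_cast this
    linarith

end Pool.Agent.Lib.MP_0219da_al
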