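import Mathlib

/-!
There is a real number `lam > 1` such that `lam` and `log lam` are algebraically independent.
-/

open Topology Filter Set

namespace Pool.Agent.Lib.MP_0219da_al

namespace TranscAux

/-- The entire function `s ↦ Q(exp s, s)`. -/
noncomputable def F (Q : MvPolynomial (Fin 2) ℚ) (s : ℂ) : ℂ :=
  MvPolynomial.aeval ![Complex.exp s, s] Q

theorem F_diff (Q : MvPolynomial (Fin 2) ℚ) : Differentiable ℂ (F Q) := by
  induction Q using MvPolynomial.induction_on with
  | C a =>
    have : F (MvPolynomial.C a) = fun _ => (algebraMap ℚ ℂ a) := by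
      funext s; simp [F]
    rw [this]; exact differentiable_const _
  | add p q hp hq =>
    have : F (p + q) = fun s => F p s + F q s := by
      funext s; simp [F]
    rw [this]; exact hp.add hq
  | mul_X p i hp =>
    have : F (p * MvPolynomial.X i) = fun s => F p s * (![Complex.exp s, s] i) := by
      funext s; simp [F]
    rw [this]
    refine hp.mul ?_
    fin_cases i
    · exact Complex.differentiable_exp
    · exact differentiable_id

theorem F_ofReal (Q : MvPolynomial (Fin 2) ℚ) (s : ℝ) :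
    F Q s = ((MvPolynomial.aeval ![Real.exp s, s] Q : ℝ) : ℂ) := by
  have h1 : ((MvPolynomial.aeval ![Real.exp s, s] Q : ℝ) : ℂ) =
      MvPolynomial.aeval (fun i => ((![Real.exp s, s] i : ℝ) : ℂ)) Q := by
    have := MvPolynomial.aeval_algebraMap_apply ℂ (![Real.exp s, s]) Q
    exact this.symm
  rw [h1, F]
  congr 2
  funext i
  fin_cases i
  · simp
  · simp

theorem eq_zero_of_F {Q : MvPolynomial (Fin 2) ℚ} (h : ∀ s, F Q s = 0) : Q = 0 := by
  -- `Q(x, y) = 0` for all `x ≠ 0` and all `y`
  have h1 : ∀ x y : ℂ, x ≠ 0 → MvPolynomial.aeval ![x, y] Q = 0 := by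
    intro x y hx
    set q : Polynomial ℂ := MvPolynomial.aeval ![Polynomial.C x, Polynomial.X] Q with hq
    have hev : ∀ w : ℂ, q.eval w = MvPolynomial.aeval ![x, w] Q := by
      intro w
      have h2 := MvPolynomial.comp_aeval_apply (φ := (Polynomial.aeval w : Polynomial ℂ →ₐ[ℂ] ℂ).restrictScalars ℚ)
        ![Polynomial.C x, Polynomial.X] Q
      rw [hq, ← Polynomial.coe_aeval_eq_eval]
      refine Eq.trans h2 ?_
      congr 2
      funext i
      fin_cases i
      · simp
      · simp
    have hq0 : q = 0 := by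
      apply Polynomial.eq_zero_of_infinite_isRoot
      have hinj : Function.Injective (fun n : ℤ => Complex.log x + n * (2 * Real.pi * Complex.I)) := by
        intro n m hnm
        have h3 : (n : ℂ) * (2 * Real.pi * Complex.I) = m * (2 * Real.pi * Complex.I) := by
          simpa using hnm
        have h4 : (2 * Real.pi * Complex.I : ℂ) ≠ 0 := Complex.two_pi_I_ne_zero
        exact_mod_cast mul_right_cancel₀ h4 h3
      refine (Set.infinite_range_of_injective hinj).mono ?_
      rintro _ ⟨n, rfl⟩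
      change q.IsRoot _
      rw [Polynomial.IsRoot, hev]
      have h3 := h (Complex.log x + n * (2 * Real.pi * Complex.I))
      rw [F, Complex.exp_add, Complex.exp_log hx, Complex.exp_int_mul_two_pi_mul_I, mul_one] at h3
      exact h3
    rw [← hev, hq0, Polynomial.eval_zero]
  have h2 : (MvPolynomial.X 0 * MvPolynomial.map (algebraMap ℚ ℂ) Q : MvPolynomial (Fin 2) ℂ) = 0 := by
    apply MvPolynomial.funext
    intro v
    rw [map_mul, MvPolynomial.eval_X, map_zero, MvPolynomial.eval_map]
    by_cases hv : v 0 = 0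
    · rw [hv, zero_mul]
    · have h3 := h1 (v 0) (v 1) hv
      have h4 : (![v 0, v 1] : Fin 2 → ℂ) = v := by
        funext i; fin_cases i <;> rfl
      rw [h4, MvPolynomial.aeval_def] at h3
      rw [h3, mul_zero]
  have h3 : MvPolynomial.map (algebraMap ℚ ℂ) Q = 0 := by
    rcases mul_eq_zero.mp h2 with h4 | h4
    · exact absurd h4 (MvPolynomial.X_ne_zero 0)
    · exact h4
  apply MvPolynomial.map_injective (algebraMap ℚ ℂ) (algebraMap ℚ ℂ).injective
  rw [h3, map_zero]

theorem finite_zeros {Q : MvPolynomial (Fin 2) ℚ} (hQ : Q ≠ 0) :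
    {s : ℝ | s ∈ Icc (0 : ℝ) 1 ∧ MvPolynomial.aeval ![Real.exp s, s] Q = 0}.Finite := by
  by_contra hinf
  apply hQ
  apply eq_zero_of_F
  have hinf' : ((fun s : ℝ => (s : ℂ)) ''
      {s : ℝ | s ∈ Icc (0 : ℝ) 1 ∧ MvPolynomial.aeval ![Real.exp s, s] Q = 0}).Infinite :=
    Set.Infinite.image Complex.ofReal_injective.injOn hinf
  obtain ⟨z, -, hz⟩ := hinf'.exists_accPt_of_subset_isCompact
    (K := (fun s : ℝ => (s : ℂ)) '' Icc (0 : ℝ) 1) (isCompact_Icc.image Complex.continuous_ofReal)
    (image_mono fun s hs => hs.1)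
  have hfr : ∃ᶠ w in 𝓝[≠] z, F Q w = (fun _ => (0 : ℂ)) w := by
    rw [accPt_iff_frequently_nhdsNE] at hz
    refine hz.mono ?_
    rintro _ ⟨s, hs, rfl⟩
    rw [F_ofReal, hs.2, Complex.ofReal_zero]
  have han : AnalyticOnNhd ℂ (F Q) univ := (F_diff Q).differentiableOn.analyticOnNhd isOpen_univ
  have := AnalyticOnNhd.eqOn_of_preconnected_of_frequently_eq han analyticOnNhd_const
    isPreconnected_univ (mem_univ z) hfr
  intro s
  exact this (mem_univ s)

end TranscAux

open TranscAux

theorem exists_lam : ∃ lam : ℝ, 1 < lam ∧ AlgebraicIndependent ℚ ![lam, Real.log lam] := by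
  by_contra hcon
  push Not at hcon
  have h1 : Ioc (0 : ℝ) 1 ⊆ ⋃ Q ∈ {Q : MvPolynomial (Fin 2) ℚ | Q ≠ 0},
      {s : ℝ | s ∈ Icc (0 : ℝ) 1 ∧ MvPolynomial.aeval ![Real.exp s, s] Q = 0} := by
    intro s hs
    have h2 := hcon (Real.exp s) (by rw [← Real.exp_zero]; exact Real.exp_lt_exp.mpr hs.1)
    rw [Real.log_exp, algebraicIndependent_iff] at h2
    push Not at h2
    obtain ⟨Q, hQ, hQ0⟩ := h2
    rw [mem_iUnion₂]
    exact ⟨Q, hQ0, ⟨hs.1.le, hs.2⟩, hQ⟩
  have hcount : Countable (MvPolynomial (Fin 2) ℚ) := by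
    rw [← Cardinal.mk_le_aleph0_iff]
    refine MvPolynomial.cardinalMk_le_max.trans ?_
    simp
  have h2 : (Ioc (0 : ℝ) 1).Countable := by
    refine Set.Countable.mono h1 (Set.Countable.biUnion (Set.to_countable _) ?_)
    intro Q hQ
    exact (finite_zeros hQ).countable
  have h3 := h2.le_aleph0
  rw [Cardinal.mk_Ioc_real zero_lt_one] at h3
  exact absurd h3 (not_le.mpr Cardinal.aleph0_lt_continuum)

end Pool.Agent.Lib.MP_0219da_al
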