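import Pool.Agent.Lib.MP_0219da_al.Core
import Pool.Agent.Lib.MP_0219da_al.Block
import Pool.Agent.Lib.MP_0219da_al.Transc
import Pool.Agent.Lib.MP_0219da_al.Spec
import Pool.Agent.Lib.MP_0219da_al.Dense

/-!
Assembly of the counterexample.
-/

namespace Pool.Agent.Lib.MP_0219da_al

open Matrix

section

variable {g n : ℕ}

/-! ### Evaluation of the polynomial -/

theorem lift_pPoly (hg : 2 ≤ g) (lam l : ℝ) (X : Fin g → Matrix (Fin n) (Fin n) ℝ) :
    FreeAlgebra.lift ℝ X (pPoly g hg lam l) =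
      pForm lam l (X ⟨0, by omega⟩) (X ⟨1, by omega⟩) := by
  unfold pPoly
  rw [map_pForm, FreeAlgebra.lift_ι_apply, FreeAlgebra.lift_ι_apply]

theorem isSymm_e1 {X : Matrix (Fin n) (Fin n) ℝ} (hX : Xᵀ = X) : (e1 ℝ X)ᵀ = e1 ℝ X := by
  simp [e1, Matrix.transpose_mul, hX]

theorem isSymm_e2 {X : Matrix (Fin n) (Fin n) ℝ} (hX : Xᵀ = X) : (e2 X)ᵀ = e2 X := by
  simp [e2, Matrix.transpose_mul, hX]

theorem isSymm_e3 {X : Matrix (Fin n) (Fin n) ℝ} (hX : Xᵀ = X) : (e3 ℝ X)ᵀ = e3 ℝ X := by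
  simp [e3, Matrix.transpose_mul, hX]

theorem tau'_eq {X Y : Matrix (Fin n) (Fin n) ℝ} (hX : Xᵀ = X) (hY : Yᵀ = Y) :
    tau' ℝ X Y = (tau ℝ X Y)ᵀ := by
  unfold tau tau'
  simp only [Matrix.transpose_mul, isSymm_e1 hX, isSymm_e2 hX, isSymm_e3 hX, hY,
    Matrix.mul_assoc]

theorem omega_symm {X Y : Matrix (Fin n) (Fin n) ℝ} (hX : Xᵀ = X) (hY : Yᵀ = Y) :
    (omega ℝ X Y)ᵀ = omega ℝ X Y := by
  unfold omega
  simp only [Matrix.transpose_add, Matrix.transpose_neg, Matrix.transpose_one,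
    Matrix.transpose_mul, isSymm_e1 hX, hY, Matrix.mul_assoc]

theorem tracePositive_pPoly (hg : 2 ≤ g) {lam : ℝ} (hlam : 1 < lam) :
    TracePositive (pPoly g hg lam (Real.log lam)) := by
  intro n X hX
  rw [lift_pPoly]
  unfold pForm
  rw [tau'_eq (hX _) (hX _)]
  exact trace_core_nonneg hlam _ _ (omega_symm (hX _) (hX _))

/-! ### Field homomorphisms -/

theorem map_pForm_semi {k k' 𝒜 ℬ : Type*} [Field k] [Field k'] [Ring 𝒜] [Ring ℬ] [Algebra k 𝒜]
    [Algebra k' ℬ] (φ : k →+* k') (f : 𝒜 →+* ℬ) (hf : ∀ c a, f (c • a) = φ c • f a)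
    (lam l : k) (x y : 𝒜) :
    f (pForm lam l x y) = pForm (φ lam) (φ l) (f x) (f y) := by
  have h2 : φ 2 = 2 := map_ofNat φ 2
  simp [pForm, core, pAB, qB, tau, tau', omega, e1, e2, e3, mPar, m1Par, hf, h2]

theorem mapMatrix_smul {k k' : Type*} [Field k] [Field k'] (φ : k →+* k') (c : k)
    (A : Matrix (Fin n) (Fin n) k) : φ.mapMatrix (c • A) = φ c • φ.mapMatrix A := by
  ext i j
  simp

theorem mapMatrix_pForm {k k' : Type*} [Field k] [Field k'] (φ : k →+* k') (lam l : k)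
    (x y : Matrix (Fin n) (Fin n) k) :
    φ.mapMatrix (pForm lam l x y) = pForm (φ lam) (φ l) (φ.mapMatrix x) (φ.mapMatrix y) :=
  map_pForm_semi φ φ.mapMatrix (mapMatrix_smul φ) lam l x y

/-- all entries of `A` lie in the subfield `F` -/
def InF (F : Subfield ℝ) (A : Matrix (Fin n) (Fin n) ℝ) : Prop := ∀ i j, A i j ∈ F

theorem InF.exists_lift {F : Subfield ℝ} {A : Matrix (Fin n) (Fin n) ℝ} (h : InF F A) :
    ∃ A' : Matrix (Fin n) (Fin n) F, F.subtype.mapMatrix A' = A :=
  ⟨Matrix.of fun i j => ⟨A i j, h i j⟩, by ext i j; rfl⟩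

theorem inF_map (F : Subfield ℝ) (A : Matrix (Fin n) (Fin n) F) :
    InF F (F.subtype.mapMatrix A) := fun i j => (A i j).2

theorem InF.inv {F : Subfield ℝ} {A : Matrix (Fin n) (Fin n) ℝ} (h : InF F A) :
    InF F A⁻¹ := by
  obtain ⟨A', rfl⟩ := h.exists_lift
  have : (F.subtype.mapMatrix A')⁻¹ = F.subtype.mapMatrix A'⁻¹ := by
    rw [Matrix.inv_def, Matrix.inv_def, mapMatrix_smul, ← RingHom.map_det, ← RingHom.map_adjugate]
    congr 1
    rw [Ring.inverse_eq_inv', Ring.inverse_eq_inv', map_inv₀]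
  rw [this]
  exact inF_map F _

/-- the constants of a rational expression -/
def RatExpr.consts : RatExpr g → List ℝ
  | .const c => [c]
  | .var _ => []
  | .add r s => r.consts ++ s.consts
  | .mul r s => r.consts ++ s.consts
  | .inv r => r.consts

theorem RatExpr.eval_inF {F : Subfield ℝ} {X : Fin g → Matrix (Fin n) (Fin n) ℝ}
    (hX : ∀ i, InF F (X i)) (r : RatExpr g) (hr : ∀ c ∈ r.consts, c ∈ F) :
    InF F (r.eval X) := by
  induction r with
  | const c =>
    intro i j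
    have hc : c ∈ F := hr c (by simp [RatExpr.consts])
    simp only [RatExpr.eval, Matrix.smul_apply, Matrix.one_apply, smul_eq_mul]
    split_ifs
    · rw [mul_one]; exact hc
    · rw [mul_zero]; exact F.zero_mem
  | var i => exact hX i
  | add r s ihr ihs =>
    intro i j
    exact F.add_mem (ihr (fun c hc => hr c (by simp [RatExpr.consts, hc])) i j)
      (ihs (fun c hc => hr c (by simp [RatExpr.consts, hc])) i j)
  | mul r s ihr ihs =>
    intro i j
    simp only [RatExpr.eval, Matrix.mul_apply]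
    refine F.sum_mem fun a _ => F.mul_mem (ihr (fun c hc => hr c (by simp [RatExpr.consts, hc])) i a)
      (ihs (fun c hc => hr c (by simp [RatExpr.consts, hc])) a j)
  | inv r ihr => exact (ihr hr).inv

/-- the `N`-fold direct sum -/
noncomputable def dsum (N n : ℕ) :
    Matrix (Fin n) (Fin n) ℝ →ₐ[ℝ] Matrix (Fin (N * n)) (Fin (N * n)) ℝ :=
  ((Matrix.reindexAlgEquiv ℝ ℝ (finProdFinEquiv (m := N) (n := n))).toAlgHom).comp
    ((Matrix.compAlgEquiv (Fin N) (Fin n) ℝ ℝ).toAlgHom.comp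
      (Matrix.scalarAlgHom (Fin N) ℝ))

theorem dsum_apply (N n : ℕ) (A : Matrix (Fin n) (Fin n) ℝ) (i j : Fin (N * n)) :
    dsum N n A i j = (Matrix.scalar (Fin N) A) (finProdFinEquiv.symm i).1
      (finProdFinEquiv.symm j).1 (finProdFinEquiv.symm i).2 (finProdFinEquiv.symm j).2 := rfl

theorem trace_dsum (N n : ℕ) (A : Matrix (Fin n) (Fin n) ℝ) :
    (dsum N n A).trace = N * A.trace := by
  simp only [Matrix.trace, Matrix.diag_apply, dsum_apply]
  rw [← Equiv.sum_comp (finProdFinEquiv (m := N) (n := n)), Fintype.sum_prod_type]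
  simp

theorem dsum_symm (N n : ℕ) (A : Matrix (Fin n) (Fin n) ℝ) (hA : A.IsSymm) :
    (dsum N n A).IsSymm := by
  ext i j
  rw [Matrix.transpose_apply, dsum_apply, dsum_apply]
  simp only [Matrix.scalar_apply, Matrix.diagonal_apply]
  by_cases h : (finProdFinEquiv.symm i).1 = (finProdFinEquiv.symm j).1
  · rw [if_pos h, if_pos h.symm, ← hA.apply]
  · rw [if_neg h, if_neg (fun h' => h h'.symm)]
    rfl

theorem continuous_pForm (lam l : ℝ) (i j : Fin g) :
    Continuous fun X : Fin g → Matrix (Fin n) (Fin n) ℝ => (pForm lam l (X i) (X j)).trace := by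
  unfold pForm core pAB qB tau tau' omega e1 e2 e3
  fun_prop

/-- a certificate over a field mapping to the reals gives nonnegativity of the trace -/
theorem trace_nonneg_of_cert {k : Type*} [Field k] (σ : k →+* ℝ) (lam l : k)
    (x y : Matrix (Fin n) (Fin n) k) (R : List (Matrix (Fin n) (Fin n) k))
    (S : List (Matrix (Fin n) (Fin n) k × Matrix (Fin n) (Fin n) k))
    (h : pForm lam l x y = (R.map fun M => Mᵀ * M).sum +
      (S.map fun s => s.1 * s.2 - s.2 * s.1).sum) :
    0 ≤ (pForm (σ lam) (σ l) (σ.mapMatrix x) (σ.mapMatrix y)).trace := by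
  rw [← mapMatrix_pForm, h, map_add, map_list_sum, map_list_sum,
    Matrix.trace_add, Matrix.trace_list_sum, Matrix.trace_list_sum]
  refine add_nonneg (List.sum_nonneg ?_) (List.sum_nonneg ?_)
  · intro x hx
    simp only [List.map_map, List.mem_map, Function.comp_apply] at hx
    obtain ⟨M, -, rfl⟩ := hx
    rw [map_mul]
    have : σ.mapMatrix Mᵀ = (σ.mapMatrix M)ᵀ := by
      ext i j
      rfl
    rw [this]
    simp only [Matrix.trace, Matrix.diag_apply, Matrix.mul_apply, Matrix.transpose_apply]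
    exact Finset.sum_nonneg fun i _ => Finset.sum_nonneg fun j _ => mul_self_nonneg _
  · intro x hx
    simp only [List.map_map, List.mem_map, Function.comp_apply] at hx
    obtain ⟨s, -, rfl⟩ := hx
    rw [map_sub, map_mul, map_mul, Matrix.trace_sub, Matrix.trace_mul_comm, sub_self]

/-- the lift of a matrix to the subfield -/
noncomputable def liftF (F : Subfield ℝ) (A : Matrix (Fin n) (Fin n) ℝ) :
    Matrix (Fin n) (Fin n) F :=
  open Classical in
  Matrix.of fun i j => if h : A i j ∈ F then ⟨A i j, h⟩ else 0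

theorem map_liftF {F : Subfield ℝ} {A : Matrix (Fin n) (Fin n) ℝ} (h : InF F A) :
    F.subtype.mapMatrix (liftF F A) = A := by
  ext i j
  simp [liftF, h i j]

theorem map_subtype_injective (F : Subfield ℝ) :
    Function.Injective (F.subtype.mapMatrix : Matrix (Fin n) (Fin n) F →+* _) := by
  intro A B h
  ext i j
  have := congrFun (congrFun h i) j
  simpa using this

/-- nonnegativity at rational tuples in the domain of the certificate -/
theorem trace_nonneg_rational {lam l : ℝ} {F : Subfield ℝ} (hlam : lam ∈ F) (hl : l ∈ F)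
    (σ : F →+* ℝ) (hσ : σ ⟨lam, hlam⟩ = lam) (X : Fin g → Matrix (Fin n) (Fin n) ℝ)
    (hXq : ∀ i a b, ∃ q : ℚ, X i a b = (q : ℝ))
    (R : List (RatExpr g)) (S : List (RatExpr g × RatExpr g))
    (hR : ∀ r ∈ R, ∀ c ∈ r.consts, c ∈ F)
    (hS : ∀ s ∈ S, (∀ c ∈ s.1.consts, c ∈ F) ∧ ∀ c ∈ s.2.consts, c ∈ F) (i j : Fin g)
    (h : pForm lam l (X i) (X j) = (R.map fun r => (r.eval X)ᵀ * r.eval X).sum +
        (S.map fun s => s.1.eval X * s.2.eval X - s.2.eval X * s.1.eval X).sum) :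
    0 ≤ (pForm lam (σ ⟨l, hl⟩) (X i) (X j)).trace := by
  have hXF : ∀ i, InF F (X i) := by
    intro i a b
    obtain ⟨q, hq⟩ := hXq i a b
    rw [hq]
    exact SubfieldClass.ratCast_mem F q
  have hσX : ∀ i, σ.mapMatrix (liftF F (X i)) = X i := by
    intro i
    ext a b
    obtain ⟨q, hq⟩ := hXq i a b
    have h1 : liftF F (X i) a b = ((q : ℚ) : F) := by
      apply Subtype.ext
      have := congrFun (congrFun (map_liftF (hXF i)) a) b
      simp only [RingHom.mapMatrix_apply, Matrix.map_apply, Subfield.subtype_apply] at this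
      rw [this, hq]
      simp
    rw [RingHom.mapMatrix_apply, Matrix.map_apply, h1, map_ratCast, hq]
  have key := trace_nonneg_of_cert σ ⟨lam, hlam⟩ ⟨l, hl⟩ (liftF F (X i)) (liftF F (X j))
    (R.map fun r => liftF F (r.eval X)) (S.map fun s => (liftF F (s.1.eval X), liftF F (s.2.eval X)))
    ?_
  · rwa [hσX, hσX, hσ] at key
  · apply map_subtype_injective F
    rw [mapMatrix_pForm, map_liftF (hXF i),
      map_liftF (hXF j), map_add, map_list_sum, map_list_sum]
    simp only [List.map_map]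
    refine h.trans ?_
    congr 2
    · apply List.map_congr_left
      intro r hr
      have h1 : F.subtype.mapMatrix (liftF F (r.eval X))ᵀ = (r.eval X)ᵀ := by
        ext a b
        exact congrFun (congrFun (map_liftF (r.eval_inF hXF (hR r hr))) b) a
      simp only [Function.comp_apply]
      rw [map_mul, h1, map_liftF (r.eval_inF hXF (hR r hr))]
    · apply List.map_congr_left
      intro s hs
      simp only [Function.comp_apply]
      rw [map_sub, map_mul, map_mul, map_liftF (s.1.eval_inF hXF (hS s hs).1),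
        map_liftF (s.2.eval_inF hXF (hS s hs).2)]

theorem not_isRationalSOS (hg : 2 ≤ g) {lam : ℝ} (hlam : 1 < lam)
    (halg : AlgebraicIndependent ℚ ![lam, Real.log lam]) :
    ¬ IsRationalSOSPlusCommutators (pPoly g hg lam (Real.log lam)) := by
  rintro ⟨R, S, hR, hS, hcert⟩
  obtain ⟨L, hLdef⟩ : ∃ L, L = R ++ (S.map Prod.fst ++ S.map Prod.snd) := ⟨_, rfl⟩
  have hRL : ∀ r ∈ R, r ∈ L := fun r hr => by rw [hLdef]; exact List.mem_append_left _ hr
  have hSL1 : ∀ s ∈ S, s.1 ∈ L := fun s hs => by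
    rw [hLdef]
    exact List.mem_append_right _ (List.mem_append_left _ (List.mem_map.mpr ⟨s, hs, rfl⟩))
  have hSL2 : ∀ s ∈ S, s.2 ∈ L := fun s hs => by
    rw [hLdef]
    exact List.mem_append_right _ (List.mem_append_right _ (List.mem_map.mpr ⟨s, hs, rfl⟩))
  have hL : ∀ r ∈ L, r.Nondegenerate := by
    intro r hr
    rw [hLdef, List.mem_append, List.mem_append, List.mem_map, List.mem_map] at hr
    rcases hr with hr | ⟨s, hs, rfl⟩ | ⟨s, hs, rfl⟩
    · exact hR r hr
    · exact (hS s hs).1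
    · exact (hS s hs).2
  obtain ⟨N, hN, hdense⟩ := mem_closure_rational_defined L hL
  obtain ⟨F, hlamF, hlF, σ, hcF, hσlam, hσl⟩ := exists_real_hom lam (Real.log lam) halg
    ((L.flatMap RatExpr.consts).toFinset)
  have hcL : ∀ r ∈ L, ∀ c ∈ r.consts, c ∈ F := by
    intro r hr c hc
    apply hcF
    rw [List.mem_toFinset, List.mem_flatMap]
    exact ⟨r, hr, hc⟩
  obtain ⟨n, T, w, hw, hneg⟩ := exists_trace_core_neg hlam hσl
  obtain ⟨m, X, Y, hX, hY, htr⟩ := exists_symm_pair lam (σ ⟨_, hlF⟩) T w hw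
  rw [← htr] at hneg
  have hm : 0 < m := by
    rcases Nat.eq_zero_or_pos m with h0 | h0
    · subst h0
      simp [Matrix.trace] at hneg
    · exact h0
  have hg0 : 0 < g := by omega
  have hg1 : 1 < g := by omega
  obtain ⟨Z, hZdef⟩ : ∃ Z : Fin g → Matrix (Fin (N * m)) (Fin (N * m)) ℝ,
    Z = fun i => if i = (⟨0, hg0⟩ : Fin g) then dsum N m X else dsum N m Y := ⟨_, rfl⟩
  have hZ0 : Z ⟨0, hg0⟩ = dsum N m X := by rw [hZdef]; simp
  have hZ1 : Z ⟨1, hg1⟩ = dsum N m Y := by rw [hZdef]; simp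
  have hZ : SymmTuple Z := by
    intro i
    rw [hZdef]
    dsimp only
    split_ifs
    · exact dsum_symm N m X hX
    · exact dsum_symm N m Y hY
  have hcl := hdense m hm Z hZ
  have hclosed : IsClosed {X' : Fin g → Matrix (Fin (N * m)) (Fin (N * m)) ℝ |
      0 ≤ (pForm lam (σ ⟨_, hlF⟩) (X' ⟨0, hg0⟩) (X' ⟨1, hg1⟩)).trace} :=
    isClosed_le continuous_const (continuous_pForm _ _ _ _)
  have hnn := closure_minimal (fun X' hX' => ?_) hclosed hcl
  · rw [Set.mem_ofPred_eq, hZ0, hZ1, ← map_pForm (dsum N m), trace_dsum] at hnn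
    have hN' : (0 : ℝ) < N := by exact_mod_cast hN
    have := mul_neg_of_pos_of_neg hN' hneg
    linarith
  · obtain ⟨hX1, hX2, hX3⟩ := hX'
    refine trace_nonneg_rational hlamF hlF σ hσlam X' hX2 R S
      (fun r hr => hcL r (hRL r hr)) (fun s hs => ⟨hcL _ (hSL1 s hs), hcL _ (hSL2 s hs)⟩) _ _ ?_
    rw [← lift_pPoly hg]
    exact hcert _ X' hX1 (fun r hr => hX3 r (hRL r hr))
      (fun s hs => ⟨hX3 _ (hSL1 s hs), hX3 _ (hSL2 s hs)⟩)

end

end Pool.Agent.Lib.MP_0219da_al
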