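import Pool.Agent.Lib.MP_0219da_al.Defs

/-!
The general-tuple model of the free skew field, and its comparison with evaluation at symmetric
tuples.
-/

namespace Pool.Agent.Lib.MP_0219da_al

open Matrix

variable {g n : ℕ}

/-- A rational expression is nondegenerate if it is defined at some tuple of real `n × n`
matrices for some `n ≥ 1`.  The nondegenerate rational expressions, where two of them are
identified if they take the same values at all tuples of matrices (of all sizes) at which both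
are defined, are the elements of the free skew field (Amitsur, Cohn). -/
def RatExpr.IsNondegenerate (r : RatExpr g) : Prop :=
  ∃ (n : ℕ) (X : Fin g → Matrix (Fin n) (Fin n) ℝ), 0 < n ∧ r.DefinedAt X

/-- The involution on rational expressions: it fixes the real constants and the variables and
reverses products. -/
def RatExpr.adj : RatExpr g → RatExpr g
  | .const c => .const c
  | .var i => .var i
  | .add r s => .add r.adj s.adj
  | .mul r s => .mul s.adj r.adj
  | .inv r => .inv r.adj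

/-- `p = ∑ r_i^* r_i + ∑ [s_j, t_j]` in the free skew field, for some finite families
`r_i`, `(s_j, t_j)` of elements of the free skew field: there are nondegenerate rational
expressions `r_i, s_j, t_j` such that the two sides have the same value at all tuples of real
matrices of all sizes at which the expression on the right-hand side is defined. -/
def IsSumOfSquaresPlusCommutators (p : FreeAlgebra ℝ (Fin g)) : Prop :=
  ∃ (R : List (RatExpr g)) (S : List (RatExpr g × RatExpr g)),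
    (∀ r ∈ R, r.IsNondegenerate) ∧
    (∀ s ∈ S, s.1.IsNondegenerate ∧ s.2.IsNondegenerate) ∧
    ∀ (n : ℕ) (X : Fin g → Matrix (Fin n) (Fin n) ℝ),
      (∀ r ∈ R, r.adj.DefinedAt X ∧ r.DefinedAt X) →
      (∀ s ∈ S, s.1.DefinedAt X ∧ s.2.DefinedAt X) →
      FreeAlgebra.lift ℝ X p =
        (R.map fun r => r.adj.eval X * r.eval X).sum +
        (S.map fun s => s.1.eval X * s.2.eval X - s.2.eval X * s.1.eval X).sum

/-! ### Evaluation in algebras -/

section Ev

variable {𝒜 ℬ : Type*} [Ring 𝒜] [Algebra ℝ 𝒜] [Ring ℬ] [Algebra ℝ ℬ]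

/-- evaluation in an algebra -/
noncomputable def RatExpr.ev (X : Fin g → 𝒜) : RatExpr g → 𝒜
  | .const c => algebraMap ℝ 𝒜 c
  | .var i => X i
  | .add r s => r.ev X + s.ev X
  | .mul r s => r.ev X * s.ev X
  | .inv r => Ring.inverse (r.ev X)

/-- domain of definition in an algebra -/
def RatExpr.Dom (X : Fin g → 𝒜) : RatExpr g → Prop
  | .const _ => True
  | .var _ => True
  | .add r s => r.Dom X ∧ s.Dom X
  | .mul r s => r.Dom X ∧ s.Dom X
  | .inv r => r.Dom X ∧ IsUnit (r.ev X)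

theorem RatExpr.ev_map (φ : 𝒜 →ₐ[ℝ] ℬ) (X : Fin g → 𝒜) (r : RatExpr g) (hr : r.Dom X) :
    r.Dom (fun i => φ (X i)) ∧ r.ev (fun i => φ (X i)) = φ (r.ev X) := by
  induction r with
  | const c => exact ⟨trivial, (φ.commutes c).symm⟩
  | var i => exact ⟨trivial, rfl⟩
  | add r s ihr ihs =>
    obtain ⟨h1, h2⟩ := hr
    obtain ⟨h3, h4⟩ := ihr h1
    obtain ⟨h5, h6⟩ := ihs h2
    refine ⟨⟨h3, h5⟩, ?_⟩
    simp only [RatExpr.ev] at *
    rw [h4, h6, map_add]
  | mul r s ihr ihs =>
    obtain ⟨h1, h2⟩ := hr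
    obtain ⟨h3, h4⟩ := ihr h1
    obtain ⟨h5, h6⟩ := ihs h2
    refine ⟨⟨h3, h5⟩, ?_⟩
    simp only [RatExpr.ev] at *
    rw [h4, h6, map_mul]
  | inv r ihr =>
    obtain ⟨h1, h2⟩ := hr
    obtain ⟨h3, h4⟩ := ihr h1
    refine ⟨⟨h3, ?_⟩, ?_⟩
    · rw [h4]; exact h2.map φ
    · simp only [RatExpr.ev] at *
      rw [h4]
      obtain ⟨u, hu⟩ := h2
      rw [← hu, Ring.inverse_unit]
      have : φ (u : 𝒜) = ((Units.map (φ : 𝒜 →* ℬ) u : ℬˣ) : ℬ) := rfl
      rw [this, Ring.inverse_unit]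
      rfl

end Ev

theorem RatExpr.ev_eq_eval (X : Fin g → Matrix (Fin n) (Fin n) ℝ) (r : RatExpr g) :
    r.ev X = r.eval X := by
  induction r with
  | const c => exact Algebra.algebraMap_eq_smul_one c
  | var i => rfl
  | add r s ihr ihs => simp only [RatExpr.ev, RatExpr.eval, ihr, ihs]
  | mul r s ihr ihs => simp only [RatExpr.ev, RatExpr.eval, ihr, ihs]
  | inv r ihr => simp only [RatExpr.ev, RatExpr.eval, ihr, Matrix.nonsing_inv_eq_ringInverse]

theorem RatExpr.dom_iff (X : Fin g → Matrix (Fin n) (Fin n) ℝ) (r : RatExpr g) :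
    r.Dom X ↔ r.DefinedAt X := by
  induction r with
  | const c => exact Iff.rfl
  | var i => exact Iff.rfl
  | add r s ihr ihs => simp only [RatExpr.Dom, RatExpr.DefinedAt, ihr, ihs]
  | mul r s ihr ihs => simp only [RatExpr.Dom, RatExpr.DefinedAt, ihr, ihs]
  | inv r ihr => simp only [RatExpr.Dom, RatExpr.DefinedAt, ihr, RatExpr.ev_eq_eval]

/-! ### The involution at symmetric tuples -/

theorem RatExpr.adj_of_symm {X : Fin g → Matrix (Fin n) (Fin n) ℝ} (hX : SymmTuple X)
    (r : RatExpr g) (hr : r.DefinedAt X) :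
    r.adj.DefinedAt X ∧ r.adj.eval X = (r.eval X)ᵀ := by
  induction r with
  | const c => exact ⟨trivial, by simp [RatExpr.adj, RatExpr.eval]⟩
  | var i => exact ⟨trivial, (hX i).symm⟩
  | add r s ihr ihs =>
    obtain ⟨h1, h2⟩ := hr
    obtain ⟨h3, h4⟩ := ihr h1
    obtain ⟨h5, h6⟩ := ihs h2
    refine ⟨⟨h3, h5⟩, ?_⟩
    simp only [RatExpr.adj, RatExpr.eval] at *
    rw [h4, h6, Matrix.transpose_add]
  | mul r s ihr ihs =>
    obtain ⟨h1, h2⟩ := hr
    obtain ⟨h3, h4⟩ := ihr h1
    obtain ⟨h5, h6⟩ := ihs h2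
    refine ⟨⟨h5, h3⟩, ?_⟩
    simp only [RatExpr.adj, RatExpr.eval] at *
    rw [h4, h6, Matrix.transpose_mul]
  | inv r ihr =>
    obtain ⟨h1, h2⟩ := hr
    obtain ⟨h3, h4⟩ := ihr h1
    refine ⟨⟨h3, ?_⟩, ?_⟩
    · rw [h4, Matrix.isUnit_iff_isUnit_det, Matrix.det_transpose,
        ← Matrix.isUnit_iff_isUnit_det]
      exact h2
    · simp only [RatExpr.adj, RatExpr.eval] at *
      rw [h4, Matrix.transpose_nonsing_inv]

/-! ### Complex one-parameter families -/

section Rep

open Polynomial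

theorem rep_complex (S K : Fin g → Matrix (Fin n) (Fin n) ℂ) (r : RatExpr g) (z₀ : ℂ)
    (h : r.Dom (fun i => S i + z₀ • K i)) :
    ∃ (D : ℂ[X]) (Q : Matrix (Fin n) (Fin n) ℂ[X]),
      D.eval z₀ ≠ 0 ∧ ∀ z, D.eval z ≠ 0 → r.Dom (fun i => S i + z • K i) ∧
        D.eval z • r.ev (fun i => S i + z • K i) = (evalRingHom z).mapMatrix Q := by
  induction r with
  | const c =>
    refine ⟨1, Matrix.scalar _ (C (c : ℂ)), by simp, fun z _ => ⟨trivial, ?_⟩⟩
    ext a b
    simp only [RatExpr.ev, eval_one, one_smul, RingHom.mapMatrix_apply, Matrix.map_apply,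
      Matrix.scalar_apply, Matrix.algebraMap_matrix_apply, Matrix.diagonal_apply]
    by_cases hab : a = b <;> simp [hab]
  | var i =>
    refine ⟨1, Matrix.of fun a b => C (S i a b) + X * C (K i a b), by simp,
      fun z _ => ⟨trivial, ?_⟩⟩
    ext a b
    simp only [RatExpr.ev, eval_one, one_mul, Matrix.add_apply, Matrix.smul_apply, smul_eq_mul,
      RingHom.mapMatrix_apply, Matrix.map_apply, Matrix.of_apply, coe_evalRingHom, eval_add,
      eval_mul, eval_C, eval_X]
  | add r s ihr ihs =>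
    obtain ⟨h1, h2⟩ := h
    obtain ⟨D1, Q1, hD1, hQ1⟩ := ihr h1
    obtain ⟨D2, Q2, hD2, hQ2⟩ := ihs h2
    refine ⟨D1 * D2, D2 • Q1 + D1 • Q2, by rw [eval_mul]; exact mul_ne_zero hD1 hD2, ?_⟩
    intro z hz
    rw [eval_mul] at hz
    obtain ⟨h3, h4⟩ := hQ1 z (left_ne_zero_of_mul hz)
    obtain ⟨h5, h6⟩ := hQ2 z (right_ne_zero_of_mul hz)
    refine ⟨⟨h3, h5⟩, ?_⟩
    have e1 : (evalRingHom z).mapMatrix (D2 • Q1) =
        D2.eval z • (evalRingHom z).mapMatrix Q1 := by
      ext a b; simp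
    have e2 : (evalRingHom z).mapMatrix (D1 • Q2) =
        D1.eval z • (evalRingHom z).mapMatrix Q2 := by
      ext a b; simp
    rw [map_add, e1, e2, ← h4, ← h6, eval_mul]
    show _ • (r.ev _ + s.ev _) = _
    rw [smul_add, smul_smul, smul_smul, mul_comm (D2.eval z)]
  | mul r s ihr ihs =>
    obtain ⟨h1, h2⟩ := h
    obtain ⟨D1, Q1, hD1, hQ1⟩ := ihr h1
    obtain ⟨D2, Q2, hD2, hQ2⟩ := ihs h2
    refine ⟨D1 * D2, Q1 * Q2, by rw [eval_mul]; exact mul_ne_zero hD1 hD2, ?_⟩
    intro z hz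
    rw [eval_mul] at hz
    obtain ⟨h3, h4⟩ := hQ1 z (left_ne_zero_of_mul hz)
    obtain ⟨h5, h6⟩ := hQ2 z (right_ne_zero_of_mul hz)
    refine ⟨⟨h3, h5⟩, ?_⟩
    have e1 : (evalRingHom z).mapMatrix (Q1 * Q2) =
        (evalRingHom z).mapMatrix Q1 * (evalRingHom z).mapMatrix Q2 := map_mul _ _ _
    rw [e1, ← h4, ← h6, eval_mul]
    show _ • (r.ev _ * s.ev _) = _
    rw [smul_mul_smul_comm]
  | inv r ihr =>
    obtain ⟨h1, h2⟩ := h
    obtain ⟨D1, Q1, hD1, hQ1⟩ := ihr h1
    have hdet : ∀ z, Q1.det.eval z = ((evalRingHom z).mapMatrix Q1).det :=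
      fun z => RingHom.map_det (evalRingHom z) Q1
    refine ⟨D1 * Q1.det, (D1 ^ 2) • Q1.adjugate, ?_, ?_⟩
    · rw [eval_mul, hdet, ← (hQ1 z₀ hD1).2]
      refine mul_ne_zero hD1 ?_
      rw [Matrix.det_smul]
      refine mul_ne_zero (pow_ne_zero _ hD1) ?_
      exact ((Matrix.isUnit_iff_isUnit_det _).mp h2).ne_zero
    · intro z hz
      rw [eval_mul, hdet] at hz
      have hd1 := left_ne_zero_of_mul hz
      have hd2 := right_ne_zero_of_mul hz
      obtain ⟨h3, h4⟩ := hQ1 z hd1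
      obtain ⟨A, hA⟩ : ∃ A, A = r.ev (fun i => S i + z • K i) := ⟨_, rfl⟩
      obtain ⟨B, hB⟩ : ∃ B, B = (evalRingHom z).mapMatrix Q1 := ⟨_, rfl⟩
      obtain ⟨d, hd⟩ : ∃ d, d = D1.eval z := ⟨_, rfl⟩
      rw [← hA, ← hB, ← hd] at h4
      rw [← hB] at hd2
      rw [← hd] at hd1
      have h5 : A.det ≠ 0 := by
        intro h0
        apply hd2
        rw [← h4, Matrix.det_smul, h0, mul_zero]
      have e0 : r.inv.ev (fun i => S i + z • K i) = A⁻¹ := by
        simp only [RatExpr.ev]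
        rw [← hA, Matrix.nonsing_inv_eq_ringInverse]
      refine ⟨⟨h3, ?_⟩, ?_⟩
      · rw [← hA]
        exact (Matrix.isUnit_iff_isUnit_det _).mpr (isUnit_iff_ne_zero.mpr h5)
      have e1 : (evalRingHom z).mapMatrix ((D1 ^ 2) • Q1.adjugate) = d ^ 2 • B.adjugate := by
        rw [hB, ← RingHom.map_adjugate, hd]
        ext a b; simp
      rw [e1, eval_mul, hdet, e0, ← hd, ← hB]
      have h6 : A = d⁻¹ • B := by rw [← h4, smul_smul, inv_mul_cancel₀ hd1, one_smul]
      have h7 : A⁻¹ = (d * B.det⁻¹) • B.adjugate := by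
        apply Matrix.inv_eq_right_inv
        rw [h6, smul_mul_smul_comm, Matrix.mul_adjugate, smul_smul]
        have : d⁻¹ * (d * B.det⁻¹) * B.det = 1 := by field_simp
        rw [this, one_smul]
      rw [h7, smul_smul]
      congr 1
      field_simp

end Rep

/-- complex matrices as real matrices of twice the size -/
noncomputable def toReal (n : ℕ) :
    Matrix (Fin n) (Fin n) ℂ →ₐ[ℝ] Matrix (Fin (n * 2)) (Fin (n * 2)) ℝ :=
  ((Matrix.reindexAlgEquiv ℝ ℝ (finProdFinEquiv (m := n) (n := 2))).toAlgHom).comp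
    ((Matrix.compAlgEquiv (Fin n) (Fin 2) ℝ ℝ).toAlgHom.comp
      (AlgHom.mapMatrix (Algebra.leftMulMatrix Complex.basisOneI)))

theorem toReal_apply (A : Matrix (Fin n) (Fin n) ℂ) (i j : Fin (n * 2)) :
    toReal n A i j = Algebra.leftMulMatrix Complex.basisOneI
      (A (finProdFinEquiv.symm i).1 (finProdFinEquiv.symm j).1)
      (finProdFinEquiv.symm i).2 (finProdFinEquiv.symm j).2 := rfl

theorem leftMul_conj (z : ℂ) (a b : Fin 2) :
    Algebra.leftMulMatrix Complex.basisOneI ((starRingEnd ℂ) z) a b =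
      Algebra.leftMulMatrix Complex.basisOneI z b a := by
  rw [Algebra.leftMulMatrix_complex, Algebra.leftMulMatrix_complex]
  fin_cases a <;> fin_cases b <;> simp

theorem toReal_symm (A : Matrix (Fin n) (Fin n) ℂ)
    (hA : ∀ i j, A j i = (starRingEnd ℂ) (A i j)) : (toReal n A).IsSymm := by
  ext i j
  rw [Matrix.transpose_apply, toReal_apply, toReal_apply, hA, leftMul_conj]

/-- a rational expression defined at some tuple of real matrices is defined at some tuple of
real symmetric matrices -/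
theorem RatExpr.IsNondegenerate.symm {r : RatExpr g} (h : r.IsNondegenerate) :
    r.Nondegenerate := by
  obtain ⟨n, X, hn, hX⟩ := h
  obtain ⟨S, hS⟩ : ∃ S : Fin g → Matrix (Fin n) (Fin n) ℂ, S =
    fun i => Matrix.of fun a b => (((X i a b + X i b a) / 2 : ℝ) : ℂ) := ⟨_, rfl⟩
  obtain ⟨K, hK⟩ : ∃ K : Fin g → Matrix (Fin n) (Fin n) ℂ, K =
    fun i => Matrix.of fun a b => (((X i a b - X i b a) / 2 : ℝ) : ℂ) := ⟨_, rfl⟩
  have hdom : r.Dom (fun i => S i + (1 : ℂ) • K i) := by
    have h1 := (r.ev_map (AlgHom.mapMatrix Complex.ofRealAm) X ((r.dom_iff X).mpr hX)).1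
    convert h1 using 2 with i
    ext a b
    rw [hS, hK]
    simp only [one_smul, Matrix.add_apply, Matrix.of_apply, AlgHom.mapMatrix_apply,
      Matrix.map_apply, Complex.ofRealAm_coe]
    push_cast
    ring
  obtain ⟨D, Q, hD1, hD⟩ := rep_complex S K r 1 hdom
  obtain ⟨t, ht⟩ : ∃ t : ℝ, D.eval ((t : ℂ) * Complex.I) ≠ 0 := by
    by_contra hcon
    push Not at hcon
    apply hD1
    have : D = 0 := by
      apply Polynomial.eq_zero_of_infinite_isRoot
      refine Set.Infinite.mono (s := Set.range fun t : ℝ => (t : ℂ) * Complex.I) ?_ ?_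
      · rintro _ ⟨t, rfl⟩
        exact hcon t
      · apply Set.infinite_range_of_injective
        intro s t hst
        have := mul_right_cancel₀ Complex.I_ne_zero hst
        exact_mod_cast this
    rw [this, Polynomial.eval_zero]
  have h2 := (r.ev_map (toReal n) _ (hD _ ht).1).1
  refine ⟨n * 2, _, by omega, ?_, (r.dom_iff _).mp h2⟩
  intro i
  apply toReal_symm
  intro a b
  rw [hS, hK]
  simp only [Matrix.add_apply, Matrix.of_apply, Matrix.smul_apply, smul_eq_mul, map_add, map_mul,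
    Complex.conj_ofReal, Complex.conj_I]
  push_cast
  ring

/-- a certificate in the general model is a certificate in the symmetric model -/
theorem IsSumOfSquaresPlusCommutators.symm {p : FreeAlgebra ℝ (Fin g)}
    (h : IsSumOfSquaresPlusCommutators p) : IsRationalSOSPlusCommutators p := by
  obtain ⟨R, S, hR, hS, hcert⟩ := h
  refine ⟨R, S, fun r hr => (hR r hr).symm, fun s hs => ⟨(hS s hs).1.symm, (hS s hs).2.symm⟩, ?_⟩
  intro n X hX hRX hSX
  rw [hcert n X (fun r hr => ⟨(r.adj_of_symm hX (hRX r hr)).1, hRX r hr⟩) hSX]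
  congr 2
  apply List.map_congr_left
  intro r hr
  rw [(r.adj_of_symm hX (hRX r hr)).2]

end Pool.Agent.Lib.MP_0219da_al
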