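import Pool.Agent.Lib.MP_0219da_al.Defs

/-!
The scalar inequality behind trace positivity.
-/

namespace Pool.Agent.Lib.MP_0219da_al

open Real MeasureTheory intervalIntegral

/-- `φ(ε) = ∫₀¹ t / (1 + t ε) dt` -/
noncomputable def phi (ε : ℝ) : ℝ := ∫ t in (0:ℝ)..1, t / (1 + t * ε)

theorem one_add_mul_pos {ε t : ℝ} (hε : -1 < ε) (h0 : 0 ≤ t) (h1 : t ≤ 1) : 0 < 1 + t * ε := by
  rcases h1.eq_or_lt with h | h
  · subst h; linarith
  · nlinarith [mul_nonneg h0 (by linarith : (0:ℝ) ≤ 1 + ε)]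

theorem phi_contOn {ε : ℝ} (hε : -1 < ε) :
    ContinuousOn (fun t : ℝ => t / (1 + t * ε)) (Set.uIcc 0 1) := by
  apply ContinuousOn.div continuousOn_id (by fun_prop)
  intro t ht
  rw [Set.uIcc_of_le zero_le_one] at ht
  exact (one_add_mul_pos hε ht.1 ht.2).ne'

theorem sq_mul_phi {ε : ℝ} (hε : -1 < ε) : ε ^ 2 * phi ε = ε - Real.log (1 + ε) := by
  unfold phi
  rw [← intervalIntegral.integral_const_mul]
  have h : ∀ t ∈ Set.uIcc (0:ℝ) 1,
      HasDerivAt (fun t => t * ε - Real.log (1 + t * ε)) (ε ^ 2 * (t / (1 + t * ε))) t := by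
    intro t ht
    rw [Set.uIcc_of_le zero_le_one] at ht
    have hp := one_add_mul_pos hε ht.1 ht.2
    have h1 : HasDerivAt (fun t : ℝ => t * ε) ε t := by
      simpa using (hasDerivAt_id t).mul_const ε
    have h2 : HasDerivAt (fun t : ℝ => 1 + t * ε) ε t := by
      simpa using h1.const_add 1
    have h3 := h1.sub (h2.log hp.ne')
    have e : ε ^ 2 * (t / (1 + t * ε)) = ε - ε / (1 + t * ε) := by
      have := hp.ne'
      rw [eq_sub_iff_add_eq, ← mul_div_assoc, ← add_div, div_eq_iff this]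
      ring
    rw [e]
    exact h3
  rw [intervalIntegral.integral_eq_sub_of_hasDerivAt h]
  · simp
  · apply ContinuousOn.intervalIntegrable
    exact continuousOn_const.mul (phi_contOn hε)

/-- the negative of the derivative of `φ` -/
noncomputable def psi (δ : ℝ) : ℝ := ∫ t in (0:ℝ)..1, t ^ 2 / (1 + t * δ) ^ 2

theorem psi_contOn {ε : ℝ} (hε : -1 < ε) :
    ContinuousOn (fun t : ℝ => t ^ 2 / (1 + t * ε) ^ 2) (Set.uIcc 0 1) := by
  apply ContinuousOn.div (by fun_prop) (by fun_prop)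
  intro t ht
  rw [Set.uIcc_of_le zero_le_one] at ht
  exact pow_ne_zero _ (one_add_mul_pos hε ht.1 ht.2).ne'

theorem mul_psi {δ : ℝ} (hδ : 0 < δ) : δ * psi δ = 2 * phi δ - 1 / (1 + δ) := by
  have hδ' : -1 < δ := by linarith
  have key : 2 * phi δ - δ * psi δ = 1 / (1 + δ) := by
    unfold phi psi
    rw [← intervalIntegral.integral_const_mul, ← intervalIntegral.integral_const_mul,
      ← intervalIntegral.integral_sub]
    · have h : ∀ t ∈ Set.uIcc (0:ℝ) 1,
          HasDerivAt (fun t => t ^ 2 / (1 + t * δ))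
            (2 * (t / (1 + t * δ)) - δ * (t ^ 2 / (1 + t * δ) ^ 2)) t := by
        intro t ht
        rw [Set.uIcc_of_le zero_le_one] at ht
        have hp := one_add_mul_pos hδ' ht.1 ht.2
        have h1 : HasDerivAt (fun t : ℝ => t * δ) δ t := by
          simpa using (hasDerivAt_id t).mul_const δ
        have h2 : HasDerivAt (fun t : ℝ => 1 + t * δ) δ t := by
          simpa using h1.const_add 1
        have h3 : HasDerivAt (fun t : ℝ => t ^ 2) (2 * t) t := by
          simpa using hasDerivAt_pow 2 t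
        have h4 := h3.div h2 hp.ne'
        have e : 2 * (t / (1 + t * δ)) - δ * (t ^ 2 / (1 + t * δ) ^ 2) =
            (2 * t * (1 + t * δ) - t ^ 2 * δ) / (1 + t * δ) ^ 2 := by
          have := hp.ne'
          field_simp
        rw [e]
        exact h4
      rw [intervalIntegral.integral_eq_sub_of_hasDerivAt h]
      · simp
      · apply ContinuousOn.intervalIntegrable
        exact (continuousOn_const.mul (phi_contOn hδ')).sub
          (continuousOn_const.mul (psi_contOn hδ'))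
    · exact ((continuousOn_const.mul (phi_contOn hδ'))).intervalIntegrable
    · exact ((continuousOn_const.mul (psi_contOn hδ'))).intervalIntegrable
  linarith

theorem phi_le_tangent {ε δ : ℝ} (hε : 0 ≤ ε) (hδ : 0 ≤ δ) :
    phi ε ≤ phi δ - psi δ * (ε - δ) + (ε - δ) ^ 2 / 4 := by
  have hε' : -1 < ε := by linarith
  have hδ' : -1 < δ := by linarith
  have i1 := (phi_contOn hε').intervalIntegrable (μ := volume)
  have i2 := (phi_contOn hδ').intervalIntegrable (μ := volume)
  have i3 := (psi_contOn hδ').intervalIntegrable (μ := volume)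
  have e4 : (ε - δ) ^ 2 / 4 = ∫ t in (0:ℝ)..1, (ε - δ) ^ 2 * t ^ 3 := by
    rw [intervalIntegral.integral_const_mul, integral_pow]
    norm_num
    ring
  have i4 : IntervalIntegrable (fun t : ℝ => (ε - δ) ^ 2 * t ^ 3) volume 0 1 :=
    (by fun_prop : Continuous (fun t : ℝ => (ε - δ) ^ 2 * t ^ 3)).intervalIntegrable _ _
  rw [e4]
  unfold phi psi
  rw [mul_comm (∫ t in (0:ℝ)..1, t ^ 2 / (1 + t * δ) ^ 2) (ε - δ),
    ← intervalIntegral.integral_const_mul,
    ← intervalIntegral.integral_sub i2 (i3.const_mul _),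
    ← intervalIntegral.integral_add (i2.sub (i3.const_mul _)) i4]
  apply intervalIntegral.integral_mono_on zero_le_one i1 ((i2.sub (i3.const_mul _)).add i4)
  intro t ht
  have hp := one_add_mul_pos hε' ht.1 ht.2
  have hq := one_add_mul_pos hδ' ht.1 ht.2
  have hp1 : 1 ≤ 1 + t * ε := by nlinarith [mul_nonneg ht.1 hε]
  have hq1 : 1 ≤ 1 + t * δ := by nlinarith [mul_nonneg ht.1 hδ]
  have key : t / (1 + t * δ) - (ε - δ) * (t ^ 2 / (1 + t * δ) ^ 2) + (ε - δ) ^ 2 * t ^ 3
      - t / (1 + t * ε) = (ε - δ) ^ 2 * t ^ 3 * (1 - 1 / ((1 + t * ε) * (1 + t * δ) ^ 2)) := by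
    field_simp
    ring
  have h1 : 1 / ((1 + t * ε) * (1 + t * δ) ^ 2) ≤ 1 := by
    rw [div_le_one (by positivity)]
    nlinarith [mul_nonneg (sub_nonneg.2 hp1) (sub_nonneg.2 hq1), sq_nonneg (t * δ)]
  have h2 : 0 ≤ (ε - δ) ^ 2 * t ^ 3 * (1 - 1 / ((1 + t * ε) * (1 + t * δ) ^ 2)) := by
    have := ht.1
    have := sub_nonneg.2 h1
    positivity
  linarith

theorem phi_ratio {α β : ℝ} (hα : 1 ≤ α) (hβ : 1 ≤ β) :
    phi (β / α - 1) ≤ phi (β - 1) + (α - 1) / 2 := by
  have hα0 : 0 < α := by linarith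
  have hβ0 : 0 < β := by linarith
  have hr : 0 < β / α := by positivity
  have hε' : -1 < β / α - 1 := by linarith
  have hδ' : -1 < β - 1 := by linarith
  have i1 := (phi_contOn hε').intervalIntegrable (μ := volume)
  have i2 := (phi_contOn hδ').intervalIntegrable (μ := volume)
  have e4 : (α - 1) / 2 = ∫ t in (0:ℝ)..1, (α - 1) * t := by
    rw [intervalIntegral.integral_const_mul, integral_id]
    ring
  have i4 : IntervalIntegrable (fun t : ℝ => (α - 1) * t) volume 0 1 :=
    (by fun_prop : Continuous (fun t : ℝ => (α - 1) * t)).intervalIntegrable _ _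
  rw [e4]
  unfold phi
  rw [← intervalIntegral.integral_add i2 i4]
  apply intervalIntegral.integral_mono_on zero_le_one i1 (i2.add i4)
  intro t ht
  have hp := one_add_mul_pos hε' ht.1 ht.2
  have hq := one_add_mul_pos hδ' ht.1 ht.2
  -- 1 + t (β - 1) ≥ t β, and 1 + t (β/α - 1) ≥ 1/α
  have h1 : t * β ≤ 1 + t * (β - 1) := by nlinarith [ht.2]
  have h2 : 1 ≤ α * (1 + t * (β / α - 1)) := by
    have : α * (1 + t * (β / α - 1)) = α + t * (β - α) := by field_simp
    rw [this]
    nlinarith [mul_nonneg ht.1 (sub_nonneg.2 hβ), mul_nonneg (sub_nonneg.2 ht.2) (sub_nonneg.2 hα)]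
  have key : t / (1 + t * (β - 1)) + (α - 1) * t - t / (1 + t * (β / α - 1)) =
      (α - 1) * t * (1 - (t * β) / (α * (1 + t * (β / α - 1)) * (1 + t * (β - 1)))) := by
    have e1 : α * (1 + t * (β / α - 1)) = α + t * (β - α) := by field_simp
    have e2 : 1 + t * (β / α - 1) = (α + t * (β - α)) / α := by
      rw [← e1]; field_simp
    have hp2 : 0 < α + t * (β - α) := by rw [← e1]; positivity
    rw [e1, e2]
    have := hp2.ne'
    have := hq.ne'
    field_simp
    ring
  have h3 : (t * β) / (α * (1 + t * (β / α - 1)) * (1 + t * (β - 1))) ≤ 1 := by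
    rw [div_le_one (by positivity)]
    nlinarith [mul_nonneg (sub_nonneg.2 h2) hq.le]
  have h4 : 0 ≤ (α - 1) * t * (1 - (t * β) / (α * (1 + t * (β / α - 1)) * (1 + t * (β - 1)))) := by
    have := ht.1
    have := sub_nonneg.2 h3
    have := sub_nonneg.2 hα
    positivity
  linarith

theorem phi_nonneg {ε : ℝ} (hε : -1 < ε) : 0 ≤ phi ε := by
  unfold phi
  apply intervalIntegral.integral_nonneg zero_le_one
  intro t ht
  have := one_add_mul_pos hε ht.1 ht.2
  have := ht.1
  positivity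

/-- the scalar cost polynomial `P(a,b) = (b-a)² (q(b) + a)` -/
noncomputable def costP (lam l a b : ℝ) : ℝ :=
  (b - a) ^ 2 * (mPar lam l + m1Par lam l * (1 - lam + b) + (1 - lam + b) ^ 2 + a)

theorem mPar_eq {lam : ℝ} (hlam : 1 < lam) :
    mPar lam (Real.log lam) = 1 + 2 * phi (lam - 1) := by
  have h := sq_mul_phi (ε := lam - 1) (by linarith)
  have hl : (lam - 1) ≠ 0 := by linarith
  unfold mPar
  rw [div_eq_iff (pow_ne_zero 2 hl)]
  have : (1:ℝ) + (lam - 1) = lam := by ring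
  rw [this] at h
  linear_combination (-2) * h

theorem m1Par_eq {lam : ℝ} (hlam : 1 < lam) :
    m1Par lam (Real.log lam) = -2 * psi (lam - 1) := by
  have h := mul_psi (δ := lam - 1) (by linarith)
  have hl : (lam - 1) ≠ 0 := by linarith
  have hl0 : lam ≠ 0 := by linarith
  unfold m1Par
  rw [mPar_eq hlam, div_eq_iff hl]
  have h' : (1:ℝ) + (lam - 1) = lam := by ring
  rw [h'] at h
  have h2 : (lam + 1) / lam = 1 + 1 / lam := by field_simp
  rw [h2]
  linear_combination 2 * h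

/-- the scalar inequality -/
theorem scalar_ineq {lam : ℝ} (hlam : 1 < lam) {a b : ℝ} (ha : 0 ≤ a) (hb : 0 ≤ b) :
    2 * Real.log (1 + a) - 2 * Real.log (1 + b) ≤
      1 - (1 + b) ^ 2 / (1 + a) ^ 2 + costP lam (Real.log lam) a b := by
  have hα : 0 < 1 + a := by linarith
  have hβ : 0 < 1 + b := by linarith
  obtain ⟨r, hr⟩ : ∃ r, r = (1 + b) / (1 + a) := ⟨_, rfl⟩
  have hr0 : 0 < r := by rw [hr]; positivity
  have hlog : Real.log r = Real.log (1 + b) - Real.log (1 + a) := by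
    rw [hr]; exact Real.log_div hβ.ne' hα.ne'
  have h1 := sq_mul_phi (ε := r - 1) (by linarith)
  have hr1 : (1:ℝ) + (r - 1) = r := by ring
  rw [hr1] at h1
  -- the tangent inequality
  have h2 := phi_le_tangent (ε := b) (δ := lam - 1) hb (by linarith)
  have h3 := phi_ratio (α := 1 + a) (β := 1 + b) (by linarith) (by linarith)
  have hb1 : (1:ℝ) + b - 1 = b := by ring
  have ha1 : (1:ℝ) + a - 1 = a := by ring
  rw [hb1, ha1, ← hr] at h3
  -- q + a ≥ 1 + 2 φ(r-1)
  obtain ⟨q, hq⟩ : ∃ q, q = mPar lam (Real.log lam) + m1Par lam (Real.log lam) * (1 - lam + b) +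
    (1 - lam + b) ^ 2 := ⟨_, rfl⟩
  have hq1 : 1 + 2 * phi b ≤ q := by
    rw [hq, mPar_eq hlam, m1Par_eq hlam]
    have h0 : 0 ≤ (b - (lam - 1)) ^ 2 := sq_nonneg _
    linarith
  have hphi := phi_nonneg (ε := b) (by linarith)
  have h4 : 1 + 2 * phi (r - 1) ≤ q + a := by linarith
  have h5 : 0 ≤ q + a := by linarith
  have h6 : 1 + 2 * phi (r - 1) ≤ (1 + a) ^ 2 * (q + a) := by
    have : q + a ≤ (1 + a) ^ 2 * (q + a) := by
      have h1a : 1 ≤ (1 + a) ^ 2 := by nlinarith
      nlinarith [mul_nonneg (sub_nonneg.2 h1a) h5]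
    linarith
  have h7 : (b - a) ^ 2 = (1 + a) ^ 2 * (r - 1) ^ 2 := by
    have : (1 + a) * (r - 1) = b - a := by rw [hr, mul_sub, mul_div_cancel₀ _ hα.ne']; ring
    rw [← this]; ring
  have h8 : (1 + b) ^ 2 / (1 + a) ^ 2 = r ^ 2 := by rw [hr, div_pow]
  have h9 : costP lam (Real.log lam) a b = (r - 1) ^ 2 * ((1 + a) ^ 2 * (q + a)) := by
    unfold costP
    rw [h7, ← hq]; ring
  rw [h8, h9]
  have h10 : (r - 1) ^ 2 * (1 + 2 * phi (r - 1)) ≤ (r - 1) ^ 2 * ((1 + a) ^ 2 * (q + a)) :=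
    mul_le_mul_of_nonneg_left h6 (sq_nonneg _)
  have h11 : (r - 1) ^ 2 * (1 + 2 * phi (r - 1)) = r ^ 2 - 1 - 2 * Real.log r := by
    linear_combination 2 * h1
  rw [h11, hlog] at h10
  linarith

end Pool.Agent.Lib.MP_0219da_al
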